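import Pool.Agent.Lib.TG.Basic
import Pool.Agent.Lib.ALB.Kaehler

/-!
# TANK G, section G1: the determinant `W(f) = det (f_j, D_1 f_j, .., D_n f_j)`
-/

set_option autoImplicit false

namespace Pool.Agent.TG

open Matrix

universe u

section Wdet

variable {k K : Type u} [Field k] [Field K] [Algebra k K] {n : ℕ} (D : Fin n → Derivation k K K)

/-- The row `(g, D_1 g, .., D_n g)`. -/
def wrow (g : K) : Fin (n + 1) → K := Fin.cons g fun l => D l g

/-- The matrix with rows `(f_j, D_1 f_j, .., D_n f_j)`. -/
def wmat (f : Fin (n + 1) → K) : Matrix (Fin (n + 1)) (Fin (n + 1)) K :=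
  Matrix.of fun j => wrow D (f j)

/-- The determinant `W(f) = det (f_j, D_1 f_j, .., D_n f_j)`. -/
def Wd (f : Fin (n + 1) → K) : K := (wmat D f).det

@[simp] theorem wrow_zero' (g : K) : wrow D g 0 = g := rfl

@[simp] theorem wrow_succ (g : K) (l : Fin n) : wrow D g l.succ = D l g := rfl

theorem wmat_apply (f : Fin (n + 1) → K) (j i : Fin (n + 1)) : wmat D f j i = wrow D (f j) i := rfl

theorem wrow_add (g h : K) : wrow D (g + h) = wrow D g + wrow D h := by
  funext i
  refine Fin.cases ?_ (fun l => ?_) i <;> simp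

theorem wrow_smul (c : k) (g : K) : wrow D (c • g) = algebraMap k K c • wrow D g := by
  funext i
  refine Fin.cases ?_ (fun l => ?_) i <;> simp [Algebra.smul_def]

theorem wmat_update (f : Fin (n + 1) → K) (i : Fin (n + 1)) (g : K) :
    wmat D (Function.update f i g) = (wmat D f).updateRow i (wrow D g) := by
  ext a b
  rw [wmat_apply]
  by_cases h : a = i
  · subst h
    rw [Function.update_self, Matrix.updateRow_self]
  · rw [Function.update_of_ne h, Matrix.updateRow_ne h, wmat_apply]

theorem Wd_update_add (f : Fin (n + 1) → K) (i : Fin (n + 1)) (g h : K) :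
    Wd D (Function.update f i (g + h)) =
      Wd D (Function.update f i g) + Wd D (Function.update f i h) := by
  simp only [Wd, wmat_update, wrow_add, Matrix.det_updateRow_add]

theorem Wd_update_smul (f : Fin (n + 1) → K) (i : Fin (n + 1)) (c : k) (g : K) :
    Wd D (Function.update f i (c • g)) = c • Wd D (Function.update f i g) := by
  simp only [Wd, wmat_update, wrow_smul, Matrix.det_updateRow_smul]
  rw [Algebra.smul_def]

/-- `W` in one variable, the others fixed. -/
def Wlin (f : Fin (n + 1) → K) (i : Fin (n + 1)) : K →ₗ[k] K where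
  toFun g := Wd D (Function.update f i g)
  map_add' := Wd_update_add D f i
  map_smul' := Wd_update_smul D f i

theorem Wlin_apply (f : Fin (n + 1) → K) (i : Fin (n + 1)) (g : K) :
    Wlin D f i g = Wd D (Function.update f i g) := rfl

theorem Wd_eq_zero_of_eq (f : Fin (n + 1) → K) {i j : Fin (n + 1)} (hij : i ≠ j)
    (h : f i = f j) : Wd D f = 0 :=
  Matrix.det_zero_of_row_eq hij (by
    show wrow D (f i) = wrow D (f j)
    rw [h])

/-- `W` as a `k`-multilinear alternating map. -/
def Walt : K [⋀^Fin (n + 1)]→ₗ[k] K where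
  toFun := Wd D
  map_update_add' := by
    intro inst f i g h
    obtain rfl : inst = instDecidableEqFin (n + 1) := Subsingleton.elim _ _
    exact Wd_update_add D f i g h
  map_update_smul' := by
    intro inst f i c g
    obtain rfl : inst = instDecidableEqFin (n + 1) := Subsingleton.elim _ _
    exact Wd_update_smul D f i c g
  map_eq_zero_of_eq' := fun f i j h hij => Wd_eq_zero_of_eq D f hij h

theorem Walt_apply (f : Fin (n + 1) → K) : Walt D f = Wd D f := rfl

/-- Multiplication by an element of `K`. -/
theorem Wd_mul (g : K) (f : Fin (n + 1) → K) :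
    Wd D (fun j => g * f j) = g ^ (n + 1) * Wd D f := by
  let B : Matrix (Fin (n + 1)) (Fin (n + 1)) K := Matrix.of fun m i =>
    Fin.cases (Fin.cases g (fun l => D l g) i) (fun l => if i = l.succ then g else 0) m
  have hB : wmat D (fun j => g * f j) = wmat D f * B := by
    ext j i
    rw [Matrix.mul_apply, Fin.sum_univ_succ, wmat_apply, wmat_apply]
    refine Fin.cases ?_ (fun l => ?_) i
    · have h1 : ∀ l : Fin n, wmat D f j l.succ * B l.succ 0 = 0 := fun l => by
        have h2 : B l.succ 0 = 0 := by
          show (if (0 : Fin (n + 1)) = l.succ then g else 0) = 0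
          rw [if_neg (Fin.succ_ne_zero l).symm]
        rw [h2, mul_zero]
      rw [Finset.sum_eq_zero fun l _ => h1 l]
      simp [B, mul_comm]
    · have h1 : ∑ m : Fin n, wmat D f j m.succ * B m.succ l.succ = wmat D f j l.succ * g := by
        rw [Finset.sum_eq_single l]
        · have h2 : B l.succ l.succ = g := by
            show (if l.succ = l.succ then g else 0) = g
            rw [if_pos rfl]
          rw [h2]
        · intro m _ hm
          have h2 : B m.succ l.succ = 0 := by
            show (if l.succ = m.succ then g else 0) = 0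
            rw [if_neg fun h => hm (Fin.succ_injective _ h).symm]
          rw [h2, mul_zero]
        · intro h
          exact absurd (Finset.mem_univ _) h
      rw [h1, wmat_apply]
      have h2 : B 0 l.succ = D l g := rfl
      rw [h2, wrow_succ, wrow_succ, wrow_zero', Derivation.leibniz, smul_eq_mul, smul_eq_mul]
      ring
  have hdet : B.det = g ^ (n + 1) := by
    rw [Matrix.det_of_isUpperTriangular]
    · rw [Finset.prod_congr rfl (fun i _ => ?_), Finset.prod_const, Finset.card_univ,
        Fintype.card_fin]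
      refine Fin.cases rfl (fun l => ?_) i
      show (if l.succ = l.succ then g else 0) = g
      rw [if_pos rfl]
    · intro m i hmi
      refine Fin.cases (fun h => ?_) (fun l => ?_) m hmi
      · exact absurd h (by simp)
      · intro h
        show (if i = l.succ then g else 0) = 0
        exact if_neg (ne_of_lt h)
  rw [Wd, hB, Matrix.det_mul, hdet, Wd]
  ring

/-- Linear change of the tuple. -/
theorem Wd_linear (A : Matrix (Fin (n + 1)) (Fin (n + 1)) k) (f : Fin (n + 1) → K) :
    Wd D (fun j => ∑ i, A j i • f i) = algebraMap k K A.det * Wd D f := by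
  have h : wmat D (fun j => ∑ i, A j i • f i) = A.map (algebraMap k K) * wmat D f := by
    ext j i
    rw [Matrix.mul_apply, wmat_apply]
    have h1 : ∀ m, A.map (algebraMap k K) j m * wmat D f m i = wrow D (A j m • f m) i := by
      intro m
      rw [wrow_smul, wmat_apply]
      rfl
    rw [Finset.sum_congr rfl fun m _ => h1 m]
    have h2 : ∀ s : Finset (Fin (n + 1)),
        wrow D (∑ m ∈ s, A j m • f m) i = ∑ m ∈ s, wrow D (A j m • f m) i := by
      intro s
      classical
      induction s using Finset.induction_on with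
      | empty =>
        rw [Finset.sum_empty, Finset.sum_empty]
        refine Fin.cases ?_ (fun l => ?_) i <;> simp
      | insert a s ha ih =>
        rw [Finset.sum_insert ha, Finset.sum_insert ha, wrow_add, Pi.add_apply, ih]
    exact h2 _
  rw [Wd, h, Matrix.det_mul, Wd]
  congr 1
  exact (RingHom.map_det (algebraMap k K) A).symm

/-- `W(1, h_1, .., h_n)` is the Jacobian determinant. -/
theorem Wd_one (h : Fin n → K) :
    Wd D (Fin.cons 1 h) = (Matrix.of fun j l : Fin n => D l (h j)).det := by
  rw [Wd, Matrix.det_succ_row_zero, Fin.sum_univ_succ]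
  have h0 : ∀ l : Fin n, wmat D (Fin.cons 1 h) 0 l.succ = 0 := fun l => by
    rw [wmat_apply, Fin.cons_zero, wrow_succ, Derivation.map_one_eq_zero]
  rw [Finset.sum_eq_zero (fun l _ => by rw [h0 l]; ring), add_zero, wmat_apply, Fin.cons_zero,
    wrow_zero']
  simp only [Fin.val_zero, pow_zero, one_mul, mul_one]
  congr 1

/-- `W(f) = f_0^(n+1) det (D_l (f_j / f_0))`. -/
theorem Wd_cons (f0 : K) (h0 : f0 ≠ 0) (f : Fin n → K) :
    Wd D (Fin.cons f0 f) = f0 ^ (n + 1) * (Matrix.of fun j l : Fin n => D l (f j / f0)).det := by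
  have h1 : (Fin.cons f0 f : Fin (n + 1) → K) =
      fun j => f0 * (Fin.cons 1 (fun j => f j / f0) : Fin (n + 1) → K) j := by
    funext j
    refine Fin.cases ?_ (fun l => ?_) j
    · simp
    · simp only [Fin.cons_succ]
      field_simp
  rw [h1, Wd_mul, Wd_one]

theorem det_mem_subring {ι : Type*} [Fintype ι] [DecidableEq ι] (S : Subring K) (M : Matrix ι ι K)
    (h : ∀ i j, M i j ∈ S) : M.det ∈ S := by
  rw [Matrix.det_apply]
  refine S.sum_mem fun σ _ => ?_
  have h1 : ∏ i, M (σ i) i ∈ S := S.prod_mem fun i _ => h _ _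
  rcases Int.units_eq_one_or (Equiv.Perm.sign σ) with h2 | h2 <;> rw [h2]
  · rwa [one_smul]
  · rw [Units.neg_smul, one_smul]
    exact S.neg_mem h1

/-- If the derivations preserve `V` and all `f_j / s` are in `V` then `W(f) / s^(n+1)` is in `V`. -/
theorem Wd_mem {V : ValuationSubring K} (hD : ∀ l, ∀ x ∈ V, D l x ∈ V) {s : K} (hs : s ≠ 0)
    (f : Fin (n + 1) → K) (hf : ∀ j, f j / s ∈ V) : Wd D f / s ^ (n + 1) ∈ V := by
  have h1 : f = fun j => s * (f j / s) := by
    funext j
    field_simp
  rw [h1, Wd_mul, mul_div_assoc, mul_comm (s ^ (n + 1)), div_mul_cancel₀ _ (pow_ne_zero _ hs)]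
  refine det_mem_subring V.toSubring _ fun i j => ?_
  rw [wmat_apply]
  refine Fin.cases ?_ (fun l => ?_) j
  · exact hf i
  · exact hD l _ (hf i)

end Wdet

section Jacobian

open Module

theorem der_sum_apply {k K : Type u} [Field k] [Field K] [Algebra k K] {ι : Type*} (s : Finset ι)
    (D : ι → Derivation k K K) (a : ι → K) (x : K) :
    (∑ l ∈ s, a l • D l) x = ∑ l ∈ s, a l * D l x := by
  classical
  induction s using Finset.induction_on with
  | empty => simp
  | insert b s hb ih =>
    rw [Finset.sum_insert hb, Finset.sum_insert hb, Derivation.add_apply, ih,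
      Derivation.smul_apply, smul_eq_mul]

variable {k K : Type u} [Field k] [Field K] [Algebra k K] {ι : Type*} [Fintype ι] [DecidableEq ι]

/-- The Jacobian criterion: `D` dual to a separating transcendence basis `z`. -/
theorem jac_ne_zero_iff [Algebra.EssFiniteType k K] (D : ι → Derivation k K K) (z : ι → K)
    (hz : ∀ l j, D l (z j) = if l = j then 1 else 0)
    (hsep : Algebra.IsSeparable (IntermediateField.adjoin k (Set.range z)) K) (h : ι → K) :
    (Matrix.of fun j l : ι => D l (h j)).det ≠ 0 ↔
      Algebra.IsSeparable (IntermediateField.adjoin k (Set.range h)) K := by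
  classical
  obtain ⟨η, hη⟩ : ∃ η : ι → Ω[K⁄k], ∀ a, η a = KaehlerDifferential.D k K (h a) :=
    ⟨_, fun _ => rfl⟩
  obtain ⟨L, hL⟩ : ∃ L : ι → (Ω[K⁄k] →ₗ[K] K), ∀ b g,
      L b (KaehlerDifferential.D k K g) = D b g :=
    ⟨fun b => (D b).liftKaehlerDifferential, fun b g =>
      (D b).liftKaehlerDifferential_comp_D g⟩
  obtain ⟨M, hM⟩ : ∃ M : Matrix ι ι K, M = Matrix.of fun j l => D l (h j) := ⟨_, rfl⟩
  rw [← hM]
  have htspan : Submodule.span K (Set.range fun a => KaehlerDifferential.D k K (z a)) = ⊤ := by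
    have h2 := ALB.span_D_of_separable (Set.range z) hsep
    rw [← Set.range_comp] at h2
    exact h2
  have hspan : Submodule.span K (Set.range η) =
      Submodule.span K (KaehlerDifferential.D k K '' (Set.range h)) := by
    rw [← Set.range_comp]
    congr 2
    funext a
    exact hη a
  have hfin : FiniteDimensional K Ω[K⁄k] := inferInstance
  have hle : finrank K Ω[K⁄k] ≤ Fintype.card ι := finrank_le_of_span_eq_top htspan
  constructor
  · intro hne
    have hind : LinearIndependent K η := by
      rw [Fintype.linearIndependent_iff]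
      intro c hc
      have h1 : Matrix.vecMul c M = 0 := by
        funext b
        have h2 := congrArg (L b) hc
        rw [map_sum, map_zero] at h2
        rw [hM]
        simp only [Matrix.vecMul, dotProduct, Matrix.of_apply, Pi.zero_apply]
        rw [← h2]
        refine Finset.sum_congr rfl fun a _ => ?_
        rw [map_smul, hη, hL, smul_eq_mul]
      have h3 := Matrix.eq_zero_of_vecMul_eq_zero hne h1
      intro a
      exact congrFun h3 a
    have hcard : Fintype.card ι = finrank K Ω[K⁄k] :=
      le_antisymm hind.fintype_card_le_finrank hle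
    have htop := hind.span_eq_top_of_card_eq_finrank' hcard
    rw [hspan] at htop
    exact ALB.separable_of_span_D _ htop
  · intro hsep' h0
    have htop := ALB.span_D_of_separable _ hsep'
    rw [← hspan] at htop
    obtain ⟨c, hc0, hc⟩ := Matrix.exists_mulVec_eq_zero_iff.2 h0
    apply hc0
    obtain ⟨Λ, hΛ⟩ : ∃ Λ : Ω[K⁄k] →ₗ[K] K, Λ = ∑ b, c b • L b := ⟨_, rfl⟩
    have hΛη : ∀ a, Λ (η a) = 0 := by
      intro a
      have h1 := congrFun hc a
      rw [hM] at h1
      simp only [Matrix.mulVec, dotProduct, Matrix.of_apply, Pi.zero_apply] at h1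
      rw [hΛ, LinearMap.sum_apply, ← h1]
      refine Finset.sum_congr rfl fun b _ => ?_
      rw [LinearMap.smul_apply, hη, hL, smul_eq_mul, mul_comm]
    have hΛ0 : ∀ w, Λ w = 0 := by
      intro w
      have hw : w ∈ Submodule.span K (Set.range η) := by rw [htop]; trivial
      have hker : Submodule.span K (Set.range η) ≤ LinearMap.ker Λ := by
        rw [Submodule.span_le]
        rintro _ ⟨a, rfl⟩
        exact hΛη a
      exact hker hw
    funext a
    have h2 := hΛ0 (KaehlerDifferential.D k K (z a))
    rw [hΛ, LinearMap.sum_apply] at h2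
    have h3 : ∀ b, (c b • L b) (KaehlerDifferential.D k K (z a)) =
        if b = a then c b else 0 := by
      intro b
      rw [LinearMap.smul_apply, hL, smul_eq_mul, hz]
      by_cases hab : b = a
      · rw [if_pos hab, if_pos hab, mul_one]
      · rw [if_neg hab, if_neg hab, mul_zero]
    rw [Finset.sum_congr rfl fun b _ => h3 b, Finset.sum_ite_eq' Finset.univ a c,
      if_pos (Finset.mem_univ _)] at h2
    exact h2

/-- The derivations dual to `h`. -/
theorem exists_dual (D : ι → Derivation k K K) (h : ι → K)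
    (hdet : (Matrix.of fun j l : ι => D l (h j)).det ≠ 0) :
    ∃ E : ι → Derivation k K K, (∀ i j, E i (h j) = if i = j then 1 else 0) ∧
      ∀ V : ValuationSubring K, (∀ l, ∀ x ∈ V, D l x ∈ V) → (∀ j, h j ∈ V) →
        V.valuation (Matrix.of fun j l : ι => D l (h j)).det = 1 → ∀ i, ∀ x ∈ V, E i x ∈ V := by
  classical
  obtain ⟨M, hM⟩ : ∃ M : Matrix ι ι K, M = Matrix.of fun j l => D l (h j) := ⟨_, rfl⟩
  rw [← hM] at hdet ⊢
  have hMM : M * M⁻¹ = 1 := Matrix.mul_nonsing_inv M (isUnit_iff_ne_zero.2 hdet)
  refine ⟨fun i => ∑ l, M⁻¹ l i • D l, fun i j => ?_, fun V hD hh h1 i x hx => ?_⟩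
  · rw [der_sum_apply]
    have h2 := congrFun (congrFun hMM j) i
    rw [Matrix.mul_apply, Matrix.one_apply] at h2
    have h3 : ∀ l, M⁻¹ l i * D l (h j) = M j l * M⁻¹ l i := fun l => by
      rw [mul_comm, hM]
      rfl
    rw [Finset.sum_congr rfl fun l _ => h3 l, h2]
    by_cases hij : j = i
    · rw [if_pos hij, if_pos hij.symm]
    · rw [if_neg hij, if_neg fun h => hij h.symm]
  · rw [der_sum_apply]
    refine V.toSubring.sum_mem fun l _ => V.mul_mem _ _ ?_ (hD l x hx)
    have hMV : ∀ a b, M a b ∈ V := fun a b => by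
      rw [hM]
      exact hD b _ (hh a)
    have hadj : M.adjugate l i ∈ V := by
      rw [Matrix.adjugate_apply]
      refine det_mem_subring V.toSubring _ fun a b => ?_
      by_cases ha : a = i
      · rw [ha, Matrix.updateRow_self]
        by_cases hb : b = l
        · rw [hb, Pi.single_eq_same]
          exact V.one_mem
        · rw [Pi.single_eq_of_ne hb]
          exact V.zero_mem
      · rw [Matrix.updateRow_ne ha]
        exact hMV a b
    have hinv : M.det⁻¹ ∈ V := by
      rw [← V.valuation_le_one_iff, map_inv₀, h1, inv_one]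
    have h3 : M⁻¹ l i = M.det⁻¹ * M.adjugate l i := by
      rw [Matrix.inv_def, Matrix.smul_apply, smul_eq_mul, Ring.inverse_eq_inv']
    rw [h3]
    exact V.mul_mem _ _ hinv hadj

end Jacobian

section Generic

variable {k K : Type u} [Field k] [Field K] [Algebra k K]

/-- A generic element of `S` has minimal value for finitely many linear maps and valuations. -/
theorem exists_generic [Infinite k] (S : Submodule k K) {ι : Type*} [Finite ι]
    (ℓ : ι → (K →ₗ[k] K)) (V : ι → ValuationSubring K) (hV : ∀ i, Ov k (V i))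
    (hS : S.FG) (hne : ∀ i, ∃ g ∈ S, ℓ i g ≠ 0) {κ : Type*} [Finite κ]
    (B : κ → Submodule k K) (hB : ∀ j, ¬ S ≤ B j) :
    ∃ f ∈ S, (∀ i, ℓ i f ≠ 0 ∧ ∀ g ∈ S, ℓ i g / ℓ i f ∈ V i) ∧ ∀ j, f ∉ B j := by
  classical
  -- minimal elements
  have hmin : ∀ i, ∃ q ∈ S, ℓ i q ≠ 0 ∧ ∀ g ∈ S, ℓ i g / ℓ i q ∈ V i := by
    intro i
    obtain ⟨g, hg, hg0⟩ := hne i
    have hP : IsModel (S.map (ℓ i)) := ⟨hS.map _, fun h => hg0 (by
      have h1 : ℓ i g ∈ S.map (ℓ i) := Submodule.mem_map_of_mem hg
      rw [h] at h1
      exact (Submodule.mem_bot k).1 h1)⟩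
    obtain ⟨f, hf⟩ := exists_isMin (hV i) hP
    obtain ⟨q, hq, rfl⟩ := Submodule.mem_map.1 hf.mem
    exact ⟨q, hq, hf.ne, fun g hg => hf.div _ (Submodule.mem_map_of_mem hg)⟩
  choose q hqS hq0 hqmin using hmin
  -- the bad subspaces of `S`
  let C : ι → Submodule k S := fun i =>
    { carrier := {g | (V i).valuation (ℓ i (g : K) / ℓ i (q i)) < 1}
      add_mem' := by
        intro a b ha hb
        show (V i).valuation (ℓ i ((a : K) + (b : K)) / ℓ i (q i)) < 1
        rw [map_add, add_div]
        exact lt_of_le_of_lt ((V i).valuation.map_add _ _) (max_lt ha hb)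
      zero_mem' := by
        show (V i).valuation (ℓ i (0 : K) / ℓ i (q i)) < 1
        rw [map_zero, zero_div, map_zero]
        exact zero_lt_one
      smul_mem' := by
        intro c a ha
        show (V i).valuation (ℓ i (c • (a : K)) / ℓ i (q i)) < 1
        rw [map_smul, Algebra.smul_def, mul_div_assoc, map_mul]
        have h1 : (V i).valuation (algebraMap k K c) ≤ 1 :=
          ((V i).valuation_le_one_iff _).2 (hV i c)
        refine lt_of_le_of_lt (mul_le_mul_left h1 _) ?_
        rw [one_mul]
        exact ha }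
  let T : ι ⊕ κ → Submodule k S := Sum.elim C fun j => (B j).comap S.subtype
  have hT : ∀ a, T a ≠ ⊤ := by
    rintro (i | j) h
    · have h1 : (⟨q i, hqS i⟩ : S) ∈ C i := by
        have h2 : C i = ⊤ := h
        rw [h2]
        trivial
      have h2 : (V i).valuation (ℓ i (q i) / ℓ i (q i)) < 1 := h1
      rw [div_self (hq0 i), map_one] at h2
      exact lt_irrefl _ h2
    · apply hB j
      intro x hx
      have h1 : (⟨x, hx⟩ : S) ∈ (B j).comap S.subtype := by
        have h2 : (B j).comap S.subtype = ⊤ := h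
        rw [h2]
        trivial
      exact h1
  obtain ⟨f, hf⟩ := Submodule.exists_forall_notMem_of_forall_ne_top T hT
  refine ⟨f, f.2, fun i => ?_, fun j hj => hf (Sum.inr j) hj⟩
  have h1 : (V i).valuation (ℓ i (f : K) / ℓ i (q i)) = 1 := by
    have h2 : ¬ (V i).valuation (ℓ i (f : K) / ℓ i (q i)) < 1 := fun h => hf (Sum.inl i) h
    exact le_antisymm (((V i).valuation_le_one_iff _).2 (hqmin i f f.2)) (not_lt.1 h2)
  have h0 : ℓ i (f : K) ≠ 0 := by
    intro h0
    rw [h0, zero_div, map_zero] at h1
    exact zero_ne_one h1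
  refine ⟨h0, fun g hg => ?_⟩
  have h3 : ℓ i g / ℓ i (f : K) = (ℓ i g / ℓ i (q i)) * (ℓ i (f : K) / ℓ i (q i))⁻¹ := by
    rw [inv_div, div_mul_div_comm, mul_comm (ℓ i (q i)) (ℓ i (f : K)),
      mul_div_mul_right _ _ (hq0 i)]
  rw [h3]
  refine (V i).mul_mem _ _ (hqmin i g hg) ?_
  rw [← (V i).valuation_le_one_iff, map_inv₀, h1, inv_one]

end Generic

end Pool.Agent.TG
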