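import Pool.Agent.Lib.TG_h35.FOD

/-!
# TANK G: existence of fields of definition
-/

set_option autoImplicit false

namespace Pool.Agent.TGFOD

open scoped TensorProduct
open Module Cardinal
open scoped IntermediateField.algebraAdjoinAdjoin

universe u

section Acl

variable {k : Type u} [Field k]

/-- The algebraic closure in `k` of the field generated by `κ₀` and `T`. -/
def acl (κ₀ : Subfield k) (T : Set k) : Subfield k :=
  (algebraicClosure (IntermediateField.adjoin κ₀ T) k).toSubfield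

theorem mem_acl {κ₀ : Subfield k} {T : Set k} {c : k} :
    c ∈ acl κ₀ T ↔ IsAlgebraic (IntermediateField.adjoin κ₀ T) c :=
  mem_algebraicClosure_iff

theorem acl_closed [IsAlgClosed k] (κ₀ : Subfield k) (T : Set k) : IsAlgClosed (acl κ₀ T) := by
  have h : IsAlgClosed (algebraicClosure (IntermediateField.adjoin κ₀ T) k) :=
    (algebraicClosure.isAlgClosure (IntermediateField.adjoin κ₀ T) k).isAlgClosed
  exact h

theorem adjoin_le_acl {κ₀ : Subfield k} {T : Set k} {c : k}
    (hc : c ∈ IntermediateField.adjoin κ₀ T) : c ∈ acl κ₀ T := by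
  rw [mem_acl]
  exact isAlgebraic_algebraMap (A := k) (⟨c, hc⟩ : IntermediateField.adjoin κ₀ T)

theorem le_acl (κ₀ : Subfield k) (T : Set k) : κ₀ ≤ acl κ₀ T := fun c hc =>
  adjoin_le_acl ((IntermediateField.adjoin κ₀ T).algebraMap_mem ⟨c, hc⟩)

theorem subset_acl (κ₀ : Subfield k) (T : Set k) : T ⊆ acl κ₀ T := fun _ hc =>
  adjoin_le_acl (IntermediateField.subset_adjoin _ _ hc)

/-- `k` has infinite transcendence degree over `κ`. -/
def Big (κ : Subfield k) : Prop := ∀ m : ℕ, ∃ c : Fin m → k, AlgebraicIndependent κ c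

theorem big_iff {κ : Subfield k} : Big κ ↔ ℵ₀ ≤ Algebra.trdeg κ k := by
  constructor
  · intro h
    rw [aleph0_le]
    intro m
    obtain ⟨c, hc⟩ := h m
    have h1 := hc.lift_cardinalMk_le_trdeg
    rw [mk_fin, lift_natCast] at h1
    simpa using h1
  · intro h m
    obtain ⟨s, hs⟩ := exists_isTranscendenceBasis κ k
    have h1 : ℵ₀ ≤ #s := by rw [hs.cardinalMk_eq_trdeg]; exact h
    have h2 : (m : Cardinal) ≤ #s := (natCast_lt_aleph0.le).trans h1
    have h3 : Nonempty (Fin m ↪ s) := by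
      have h4 : lift.{u} #(Fin m) ≤ lift.{0} #s := by
        rw [mk_fin, lift_natCast]
        simpa using h2
      exact lift_mk_le'.1 h4
    obtain ⟨e⟩ := h3
    exact ⟨fun i => (e i : k), hs.1.comp e e.injective⟩

theorem trdeg_acl_add (κ₀ : Subfield k) (T : Set k) :
    Algebra.trdeg κ₀ (Algebra.adjoin κ₀ T) + Algebra.trdeg (acl κ₀ T) k = Algebra.trdeg κ₀ k := by
  let S := Algebra.adjoin κ₀ T
  let F₁ := IntermediateField.adjoin κ₀ T
  let κ₁ := algebraicClosure F₁ k
  have i1 : FaithfulSMul κ₀ S := (faithfulSMul_iff_algebraMap_injective _ _).2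
    (algebraMap κ₀ S).injective
  have i2 : FaithfulSMul S k := (faithfulSMul_iff_algebraMap_injective _ _).2
    Subtype.val_injective
  have i3 : FaithfulSMul F₁ κ₁ := (faithfulSMul_iff_algebraMap_injective _ _).2
    (algebraMap F₁ κ₁).injective
  have i4 : FaithfulSMul F₁ k := (faithfulSMul_iff_algebraMap_injective _ _).2
    (algebraMap F₁ k).injective
  have i5 : FaithfulSMul κ₁ k := (faithfulSMul_iff_algebraMap_injective _ _).2
    (algebraMap κ₁ k).injective
  have h1 : Algebra.trdeg κ₀ S + Algebra.trdeg S k = Algebra.trdeg κ₀ k := trdeg_add_eq κ₀ S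
  have h2 : Algebra.trdeg S F₁ + Algebra.trdeg F₁ k = Algebra.trdeg S k := trdeg_add_eq S F₁
  have h3 : Algebra.trdeg F₁ κ₁ + Algebra.trdeg κ₁ k = Algebra.trdeg F₁ k := trdeg_add_eq F₁ κ₁
  have h4 : Algebra.trdeg S F₁ = 0 := _root_.trdeg_eq_zero
  have h5 : Algebra.trdeg F₁ κ₁ = 0 := _root_.trdeg_eq_zero
  rw [← h1, ← h2, ← h3, h4, h5, zero_add, zero_add]
  rfl

theorem trdeg_adjoin_le (κ₀ : Subfield k) (T : Set k) :
    Algebra.trdeg κ₀ (Algebra.adjoin κ₀ T) ≤ #T := by
  let f : MvPolynomial T κ₀ →ₐ[κ₀] Algebra.adjoin κ₀ T :=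
    MvPolynomial.aeval fun t => ⟨t, Algebra.subset_adjoin t.2⟩
  have hf : Function.Surjective f := by
    intro a
    have h1 : (a : k) ∈ (MvPolynomial.aeval ((↑) : T → k) : MvPolynomial T κ₀ →ₐ[κ₀] k).range := by
      rw [← Algebra.adjoin_range_eq_range_aeval, Subtype.range_coe]
      exact a.2
    obtain ⟨P, hP⟩ := h1
    refine ⟨P, Subtype.ext ?_⟩
    have h2 : (Algebra.adjoin κ₀ T).val.comp f = MvPolynomial.aeval ((↑) : T → k) := by
      ext t
      simp [f]
    have h3 := DFunLike.congr_fun h2 P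
    rw [← hP]
    exact h3
  have h1 := trdeg_le_of_surjective f hf
  rwa [MvPolynomial.trdeg_of_isDomain, lift_id] at h1

theorem acl_big {κ₀ : Subfield k} {T : Set k} (hT : T.Finite) (h : Big κ₀) : Big (acl κ₀ T) := by
  rw [big_iff] at h ⊢
  by_contra hlt
  rw [not_le] at hlt
  have h1 : Algebra.trdeg κ₀ (Algebra.adjoin κ₀ T) < ℵ₀ := by
    have : Finite T := hT
    exact (trdeg_adjoin_le κ₀ T).trans_lt (lt_aleph0_of_finite T)
  have h2 := add_lt_aleph0 h1 hlt
  rw [trdeg_acl_add] at h2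
  exact not_le_of_gt h2 h

end Acl

section Exists

variable {k K : Type u} [Field k] [Field K] [Algebra k K]

theorem adjoin_mono_field {κ κ' : Subfield k} (h : κ ≤ κ') {S : Set K} {a : K}
    (ha : a ∈ Algebra.adjoin κ S) : a ∈ Algebra.adjoin κ' S := by
  induction ha using Algebra.adjoin_induction with
  | mem y hy => exact Algebra.subset_adjoin hy
  | algebraMap c => exact (Algebra.adjoin κ' S).algebraMap_mem ⟨c, h c.2⟩
  | add y z _ _ hy hz => exact add_mem hy hz
  | mul y z _ _ hy hz => exact mul_mem hy hz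

theorem adjoin_coeff {S : Set K} {a : K} (ha : a ∈ Algebra.adjoin k S) :
    ∃ T : Finset k, ∀ κ : Subfield k, (T : Set k) ⊆ κ → a ∈ Algebra.adjoin κ S := by
  classical
  induction ha using Algebra.adjoin_induction with
  | mem y hy => exact ⟨∅, fun κ _ => Algebra.subset_adjoin hy⟩
  | algebraMap c =>
    exact ⟨{c}, fun κ h => (Algebra.adjoin κ S).algebraMap_mem ⟨c, h (by simp)⟩⟩
  | add y z _ _ hy hz =>
    obtain ⟨T, hT⟩ := hy
    obtain ⟨T', hT'⟩ := hz
    refine ⟨T ∪ T', fun κ h => add_mem (hT κ ?_) (hT' κ ?_)⟩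
    · exact fun c hc => h (by simp [Finset.mem_coe.1 hc])
    · exact fun c hc => h (by simp [Finset.mem_coe.1 hc])
  | mul y z _ _ hy hz =>
    obtain ⟨T, hT⟩ := hy
    obtain ⟨T', hT'⟩ := hz
    refine ⟨T ∪ T', fun κ h => mul_mem (hT κ ?_) (hT' κ ?_)⟩
    · exact fun c hc => h (by simp [Finset.mem_coe.1 hc])
    · exact fun c hc => h (by simp [Finset.mem_coe.1 hc])

/-- Algebraic relations are defined over a finitely generated field. -/
theorem alg_descent {S : Set K} {a : K} (ha : IsAlgebraic (Algebra.adjoin k S) a) :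
    ∃ T : Finset k, ∀ κ : Subfield k, (T : Set k) ⊆ κ → IsAlgebraic (Algebra.adjoin κ S) a := by
  classical
  obtain ⟨p, hp0, hp⟩ := ha
  have h1 : ∀ i, ∃ T : Finset k, ∀ κ : Subfield k, (T : Set k) ⊆ κ →
      (p.coeff i : K) ∈ Algebra.adjoin κ S := fun i => adjoin_coeff (p.coeff i).2
  choose T hT using h1
  refine ⟨p.support.biUnion T, fun κ hκ => ?_⟩
  have h2 : ∀ i, (p.coeff i : K) ∈ Algebra.adjoin κ S := by
    intro i
    by_cases hi : i ∈ p.support
    · refine hT i κ fun c hc => hκ ?_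
      rw [Finset.coe_biUnion]
      exact Set.mem_biUnion (Finset.mem_coe.2 hi) hc
    · rw [Polynomial.notMem_support_iff.1 hi]
      exact zero_mem _
  let q : Polynomial (Algebra.adjoin κ S) :=
    ∑ i ∈ p.support, Polynomial.monomial i ⟨p.coeff i, h2 i⟩
  have hq : ∀ j, ((q.coeff j : Algebra.adjoin κ S) : K) = p.coeff j := by
    intro j
    rw [Polynomial.finsetSum_coeff]
    simp only [Polynomial.coeff_monomial]
    rw [Finset.sum_ite_eq' p.support j]
    split_ifs with h
    · rfl
    · rw [Polynomial.notMem_support_iff.1 h, ZeroMemClass.coe_zero, ZeroMemClass.coe_zero]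
  refine ⟨q, ?_, ?_⟩
  · intro h0
    apply hp0
    ext j
    rw [← hq j, h0, Polynomial.coeff_zero, Polynomial.coeff_zero, ZeroMemClass.coe_zero,
      ZeroMemClass.coe_zero]
  · rw [Polynomial.aeval_eq_sum_range' (n := p.natDegree + 1 + (q.natDegree + 1)) (by omega)]
    rw [Polynomial.aeval_eq_sum_range' (n := p.natDegree + 1 + (q.natDegree + 1)) (by omega)] at hp
    rw [← hp]
    refine Finset.sum_congr rfl fun i _ => ?_
    rw [Algebra.smul_def, Algebra.smul_def]
    congr 1
    exact hq i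

/-- Existence of fields of definition. -/
theorem exists_FD [IsAlgClosed k] (hfg : (⊤ : IntermediateField k K).FG) {n : ℕ} {x : Fin n → K}
    (hx : IsTranscendenceBasis k x) (κ₀ : Subfield k) (F : Finset K) (C : Finset k) :
    ∃ (T : Finset k) (E : IntermediateField (acl κ₀ (T : Set k)) K), C ⊆ T ∧
      FD (acl κ₀ (T : Set k)) E x ∧ (F : Set K) ⊆ E := by
  classical
  obtain ⟨G, hG⟩ := hfg
  have halg := hx.isAlgebraic
  have h1 : ∀ y : K, ∃ T : Finset k, ∀ κ : Subfield k, (T : Set k) ⊆ κ →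
      IsAlgebraic (Algebra.adjoin κ (Set.range x)) y := fun y => alg_descent (halg.isAlgebraic y)
  choose T hT using h1
  let TT : Finset k := C ∪ (G ∪ F).biUnion T
  let κ := acl κ₀ (TT : Set k)
  let L := IntermediateField.adjoin κ (Set.range x)
  have h2 : ∀ y ∈ G ∪ F, IsAlgebraic L y := by
    intro y hy
    have h3 := hT y κ fun c hc => subset_acl _ _ (by
      rw [Finset.coe_union, Finset.coe_biUnion]
      exact Or.inr (Set.mem_biUnion (Finset.mem_coe.2 hy) hc))
    exact (IsFractionRing.isAlgebraic_iff (Algebra.adjoin κ (Set.range x)) L K (x := y)).1 h3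
  let S : Finset K := Finset.univ.image x ∪ (G ∪ F)
  let E := IntermediateField.adjoin κ (S : Set K)
  have hSE : (S : Set K) ⊆ E := IntermediateField.subset_adjoin _ _
  have hxS : ∀ i, x i ∈ S := fun i =>
    Finset.mem_union_left _ (Finset.mem_image_of_mem _ (Finset.mem_univ i))
  refine ⟨TT, E, Finset.subset_union_left, ⟨acl_closed _ _, hx.1, ?_, ?_, ?_, ?_⟩, ?_⟩
  · exact fun i => hSE (Finset.mem_coe.2 (hxS i))
  · have h3 : E ≤ (algebraicClosure L K).restrictScalars κ := by
      rw [IntermediateField.adjoin_le_iff]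
      intro y hy
      change y ∈ algebraicClosure L K
      rw [mem_algebraicClosure_iff]
      rcases Finset.mem_union.1 (Finset.mem_coe.1 hy) with hy | hy
      · obtain ⟨i, -, rfl⟩ := Finset.mem_image.1 hy
        exact isAlgebraic_algebraMap (A := K)
          (⟨x i, IntermediateField.subset_adjoin _ _ ⟨i, rfl⟩⟩ : L)
      · exact h2 y hy
    intro a ha
    exact mem_algebraicClosure_iff.1 (h3 ha)
  · rw [eq_top_iff, ← hG, IntermediateField.adjoin_le_iff]
    intro y hy
    exact IntermediateField.subset_adjoin _ _ (hSE (Finset.mem_coe.2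
      (Finset.mem_union_right _ (Finset.mem_union_left _ (Finset.mem_coe.1 hy)))))
  · exact ⟨S, rfl⟩
  · intro y hy
    exact hSE (Finset.mem_coe.2
      (Finset.mem_union_right _ (Finset.mem_union_right _ (Finset.mem_coe.1 hy))))

end Exists

end Pool.Agent.TGFOD
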