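import Pool.Agent.Lib.TG_h35.J7b

/-!
# TANK G: algebraic independence, linear changes and generic choices
-/

set_option autoImplicit false

namespace Pool.Agent.TGFOD

open scoped Classical
open Pool.Agent.TGJ

universe u

section

variable {F L : Type u} [Field F] [Field L] [Algebra F L]

/-- If `c` is algebraically independent and rational over `F(c')`, `|c'| = |c|`, then `c'` is
algebraically independent. -/
theorem indep_of_mem_adjoin {ι : Type} [Fintype ι] {c c' : ι → L} (hc : AlgebraicIndependent F c)
    (h : ∀ i, c i ∈ IntermediateField.adjoin F (Set.range c')) : AlgebraicIndependent F c' := by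
  rw [algebraicIndependent_iff_frk] at hc ⊢
  have h1 : frk F (Finset.univ.image c) ≤ frk F (Finset.univ.image c') := by
    apply frk_le_of_algebraic
    intro a ha
    obtain ⟨i, -, rfl⟩ := Finset.mem_image.1 ha
    have h2 : ((Finset.univ.image c' : Finset L) : Set L) = Set.range c' := by simp
    rw [h2]
    exact isAlgebraic_algebraMap (A := L)
      (⟨c i, h i⟩ : IntermediateField.adjoin F (Set.range c'))
  have h3 : frk F (Finset.univ.image c') ≤ Fintype.card ι :=
    (frk_le_card F _).trans (Finset.card_image_le.trans (by simp))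
  omega

/-- Exchange: if `c` is algebraically independent over `F` and `b` over `F(c)`, then `c` is
algebraically independent over `F(b)`. -/
theorem indep_swap {ι κ : Type} [Fintype ι] [Fintype κ] {c : ι → L} {b : κ → L}
    (hc : AlgebraicIndependent F c)
    (hb : AlgebraicIndependent (IntermediateField.adjoin F (Set.range c)) b) :
    AlgebraicIndependent (IntermediateField.adjoin F (Set.range b)) c := by
  have e1 : ((Finset.univ.image c : Finset L) : Set L) = Set.range c := by simp
  have e2 : ((Finset.univ.image b : Finset L) : Set L) = Set.range b := by simp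
  rw [← e1, algebraicIndependent_adjoin_iff] at hb
  rw [algebraicIndependent_iff_frk] at hc
  rw [← e2, algebraicIndependent_adjoin_iff]
  have h1 := frk_le_card F (Finset.univ.image b)
  have h2 : (Finset.univ.image b).card ≤ Fintype.card κ := Finset.card_image_le.trans (by simp)
  have h3 := frk_union_le F (Finset.univ.image b) (Finset.univ.image c)
  rw [Finset.union_comm] at hb
  omega

end

section

variable {k : Type u} [Field k]

theorem indep_mono {κ₁ κ₂ : Subfield k} (h : κ₁ ≤ κ₂) {ι : Type*} {c : ι → k}
    (hc : AlgebraicIndependent κ₂ c) : AlgebraicIndependent κ₁ c := by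
  let _ : Algebra κ₁ κ₂ := (Subfield.inclusion h).toAlgebra
  have htow : IsScalarTower κ₁ κ₂ k := IsScalarTower.of_algebraMap_eq fun _ => rfl
  exact hc.restrictScalars (algebraMap κ₁ κ₂).injective

/-- Algebraic independence over the algebraic closure. -/
theorem indep_acl {κ : Subfield k} {ι : Type*} {T : Set k} {c : ι → k}
    (h : AlgebraicIndependent (IntermediateField.adjoin κ T) c) :
    AlgebraicIndependent (acl κ T) c := by
  have h1 : AlgebraicIndependent (algebraicClosure (IntermediateField.adjoin κ T) k) c :=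
    h.algebraicClosure
  exact h1

theorem indep_of_acl {κ : Subfield k} {ι : Type*} {T : Set k} {c : ι → k}
    (h : AlgebraicIndependent (acl κ T) c) :
    AlgebraicIndependent (IntermediateField.adjoin κ T) c := by
  have h1 : AlgebraicIndependent (algebraicClosure (IntermediateField.adjoin κ T) k) c := h
  exact h1.restrictScalars (algebraMap (IntermediateField.adjoin κ T)
    (algebraicClosure (IntermediateField.adjoin κ T) k)).injective

theorem Big.exists_indep {κ : Subfield k} (h : Big κ) (ι : Type) [Fintype ι] :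
    ∃ c : ι → k, AlgebraicIndependent κ c := by
  obtain ⟨c, hc⟩ := h (Fintype.card ι)
  exact ⟨fun i => c (Fintype.equivFin ι i), hc.comp _ (Fintype.equivFin ι).injective⟩

/-- A polynomial over `κ` does not vanish at algebraically independent elements. -/
theorem eval_ne_zero {κ : Subfield k} {ι : Type*} {c : ι → k} (hc : AlgebraicIndependent κ c)
    {Φ : MvPolynomial ι k} (hΦ : Φ ≠ 0) (hcoef : (Φ.coeffs : Set k) ⊆ κ) :
    MvPolynomial.eval c Φ ≠ 0 := by
  have h1 : Φ ∈ Set.range (MvPolynomial.map (algebraMap κ k)) := by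
    rw [MvPolynomial.mem_range_map_iff_coeffs_subset]
    intro a ha
    exact ⟨⟨a, hcoef ha⟩, rfl⟩
  obtain ⟨Ψ, rfl⟩ := h1
  rw [MvPolynomial.eval_map]
  intro h0
  apply hΦ
  have h2 : MvPolynomial.aeval c Ψ = 0 := h0
  rw [(injective_iff_map_eq_zero _).1 hc Ψ h2, map_zero]

/-- Generic choice. -/
theorem Big.exists_generic {κ : Subfield k} (h : Big κ) {ι : Type} [Fintype ι] (T : Finset k)
    {Φ : MvPolynomial ι k} (hΦ : Φ ≠ 0) :
    ∃ c : ι → k, AlgebraicIndependent (acl κ (T : Set k)) c ∧ MvPolynomial.eval c Φ ≠ 0 := by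
  have h1 : Big (acl (acl κ (T : Set k)) (Φ.coeffs : Set k)) :=
    acl_big Φ.coeffs.finite_toSet (acl_big T.finite_toSet h)
  obtain ⟨c, hc⟩ := h1.exists_indep ι
  exact ⟨c, indep_mono (le_acl _ _) hc, eval_ne_zero hc hΦ (subset_acl _ _)⟩

/-- Generic choice of a pair. -/
theorem Big.exists_generic_pair {κ : Subfield k} (h : Big κ) {ι ι' : Type} [Fintype ι]
    [Fintype ι'] {Φ : MvPolynomial ι k} (hΦ : Φ ≠ 0) (Ψ : (ι → k) → MvPolynomial ι' k)
    (hΨ : ∀ c, MvPolynomial.eval c Φ ≠ 0 → Ψ c ≠ 0) :
    ∃ (c : ι → k) (b : ι' → k), MvPolynomial.eval c Φ ≠ 0 ∧ MvPolynomial.eval b (Ψ c) ≠ 0 ∧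
      AlgebraicIndependent κ c ∧ AlgebraicIndependent κ b ∧
      AlgebraicIndependent (IntermediateField.adjoin κ (Set.range b)) c := by
  obtain ⟨c, hc, hcΦ⟩ := h.exists_generic (∅ : Finset k) hΦ
  have hcκ : AlgebraicIndependent κ c := indep_mono (le_acl _ _) hc
  obtain ⟨b, hb, hbΨ⟩ := h.exists_generic (Finset.univ.image c) (hΨ c hcΦ)
  have e1 : ((Finset.univ.image c : Finset k) : Set k) = Set.range c := by simp
  rw [e1] at hb
  exact ⟨c, b, hcΦ, hbΨ, hcκ, indep_mono (le_acl _ _) hb, indep_swap hcκ (indep_of_acl hb)⟩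

end

end Pool.Agent.TGFOD
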