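import Pool.Agent.Lib.TGBC_h29.J9
import Pool.Agent.Lib.TG_h35.Indep

/-!
# TANK G, the bridge B → C in free form: the tuple of every point has algebraically independent
coefficients over any given small subfield
-/

set_option autoImplicit false

namespace Pool.Agent.TGBC

open Filter Module
open Pool.Agent.TG (Ov ZDim IsMin ch NV RV Fin' IsModel Bir)
open Pool.Agent.TG15
open Pool.Agent.TGJ
open Pool.Agent.TGBC74 (T₀)
open Pool.Agent.TGBC30 (BData B0 qmap)
open Pool.Agent.TGBC32 (linS lin)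
open Pool.Agent.TGFOD

universe u

variable {k K : Type u} [Field k] [Field K] [Algebra k K]

/-- `g1Pt` for all values of the coefficients outside a hypersurface. -/
theorem g1PtPoly {k K : Type u} [Field k] [Field K] [Algebra k K] (n : ℕ) (hinf : Infinite k)
    (htr : Algebra.trdeg k K = n) (q : K [⋀^Fin (n + 1)]→ₗ[k] K) (L : Submodule k K)
    (hL : L.FG) (h1L : 1 ∈ L)
    (hw : ∀ w : K, w ≠ 0 → ∃ g : Fin (n + 1) → K, (∀ j, g j ∈ (k ∙ w) * L) ∧ q g ≠ 0) (c' : ℕ)
    (hq : ∀ (M : ℕ) (g : Fin (n + 1) → K), (∀ j, g j ∈ L ^ M) → q g ∈ L ^ ((n + 1) * M + c'))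
    (c_ : ℕ) (τ : K) (hτ : τ ≠ 0) (hτL : τ ∈ L ^ c_) (T : ℕ) (hT : 1 ≤ T) (m₀ : ℕ) :
    ∃ m ≥ m₀, ∃ W ≤ L ^ m, W ≠ ⊥ ∧
    ∀ V : ValuationSubring K, ZDim k V → ∀ f₀, IsMin V (W * L) f₀ → ∀ (h : ℕ) (e : Fin h → K),
      Submodule.span k (Set.range e) = hx V (W * L) →
      ∃ Φ : MvPolynomial (Fin (n + 1) × Fin h) k, Φ ≠ 0 ∧ ∀ c, MvPolynomial.eval c Φ ≠ 0 →
        PtData q L W (m + 1) (c_ + m) τ V T (tup f₀ e c) := by
  obtain ⟨m, hm, W, hWL, hW0, hW⟩ := TG15.g1Fin k K n hinf htr q L hL h1L hw c' hq c_ τ hτ hτL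
    T hT m₀
  refine ⟨m, hm, W, hWL, hW0, fun V hV f₀ hf₀ h e he => ?_⟩
  have hfdL : FiniteDimensional k L := Module.Finite.iff_fg.2 hL
  have hfdm : FiniteDimensional k (L ^ m : Submodule k K) := ALB.finite_pow _ _
  have hWfd : FiniteDimensional k W := Submodule.finiteDimensional_of_le hWL
  have hWfg : W.FG := Module.Finite.iff_fg.1 hWfd
  have hHfg : (W * L).FG := hWfg.mul hL
  have heX : ∀ j, e j ∈ hx V (W * L) := fun j => he ▸ Submodule.subset_span ⟨j, rfl⟩
  obtain ⟨Φ₁, hΦ₁, h1⟩ := (hW V hV f₀ hf₀).2 h e he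
  obtain ⟨Φ₂, hΦ₂, h2⟩ := TGX45.red_generic (n := n) htr.le hV hf₀ he fun j => hx_le (heX j)
  refine ⟨Φ₁ * Φ₂, mul_ne_zero hΦ₁ hΦ₂, fun c hc => ?_⟩
  rw [map_mul] at hc
  obtain ⟨hq0, hloc⟩ := h1 c (left_ne_zero_of_mul hc)
  obtain ⟨r, hr⟩ := h2 c (right_ne_zero_of_mul hc)
  have hlin : ∀ l : Fin (n + 1), ∑ j, c (l, j) • e j ∈ hx V (W * L) := fun l =>
    Submodule.sum_mem _ fun j _ => Submodule.smul_mem _ _ (heX j)
  have hmem : ∀ l : Fin n, tup f₀ e c l.succ ∈ hx V (W * L) := by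
    intro l
    rw [tup, if_neg (Fin.succ_ne_zero l), zero_add]
    exact hlin _
  have hg0 : IsMin V (W * L) (tup f₀ e c 0) := by
    have h3 : tup f₀ e c 0 = f₀ + ∑ j, c (0, j) • e j := by
      rw [tup, if_pos rfl]
    rw [h3]
    refine hf₀.of_val (add_mem hf₀.mem (hx_le (hlin 0))) ?_
    rw [add_div, div_self hf₀.ne]
    rcases (gt_iff hf₀).1 (hlin 0).2 with h4 | h4
    · rw [h4, zero_div, add_zero, map_one]
    · have h5 : V.valuation ((∑ j, c (0, j) • e j) / f₀) < 1 := by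
        rw [map_div₀]
        exact (div_lt_one₀ (zero_lt_iff.2 ((Valuation.ne_zero_iff _).2 hf₀.ne))).2 h4
      rw [Valuation.map_add_eq_of_lt_left _ (by rwa [map_one]), map_one]
  refine ⟨hg0, hmem, hq0, ⟨r, ?_⟩, ?_, ?_⟩
  · refine red_chart hV hf₀ hg0 ?_ ?_
    · rw [Submodule.span_le]
      rintro _ ⟨l, rfl⟩
      exact hmem l
    · have h3 := span_range_eq_mx (H := W * L) (f := f₀) (y := fun l : Fin n => tup f₀ e c l.succ)
        (TGX45.uch (W * L) f₀ (fun j => hx_le (heX j)) c)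
        (fun l => TGX45.uch_coe (fun j => hx_le (heX j)) c l)
      rw [h3] at hr
      exact hr
  · refine (hW V hV f₀ hf₀).1.mono fun t ht => ?_
    rwa [← finrank_mx_pow hV hHfg hf₀ hg0]
  · rwa [← loc_chart hV hHfg hf₀ hg0]

section Alg

variable {R : Type*} [CommRing R] [Algebra k R] {n : ℕ}

open MvPolynomial

/-- The polynomial of `exists_matrix`. -/
theorem matrix_poly (n : ℕ) {ι : Type*} [Fintype ι] (α : ι → MvPolynomial (Fin n) k)
    (hα : ∀ l, α l ≠ 0) : ∃ P : MvPolynomial (Fin n × Fin n) k, P ≠ 0 ∧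
      ∀ c : Fin n × Fin n → k, eval c P ≠ 0 →
        (Matrix.of fun i j => c (i, j)).det ≠ 0 ∧
        ∀ l i, eval (fun j => c (j, i)) (α l) ≠ 0 := by
  classical
  let G : Matrix (Fin n) (Fin n) (MvPolynomial (Fin n × Fin n) k) :=
    Matrix.of fun i j => X (i, j)
  let P : MvPolynomial (Fin n × Fin n) k :=
    G.det * ∏ l : ι, ∏ i : Fin n, rename (fun j => (j, i)) (α l)
  have hG : G.det ≠ 0 := by
    intro h
    have h1 := congrArg (eval fun p : Fin n × Fin n => (1 : Matrix (Fin n) (Fin n) k) p.1 p.2) h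
    rw [RingHom.map_det, map_zero] at h1
    have h2 : (eval fun p : Fin n × Fin n => (1 : Matrix (Fin n) (Fin n) k) p.1 p.2).mapMatrix G =
        1 := by
      ext i j
      rw [RingHom.mapMatrix_apply, Matrix.map_apply]
      show eval _ (X (i, j)) = _
      rw [eval_X]
    rw [h2, Matrix.det_one] at h1
    exact one_ne_zero h1
  have hP : P ≠ 0 := by
    refine mul_ne_zero hG (Finset.prod_ne_zero_iff.2 fun l _ => Finset.prod_ne_zero_iff.2
      fun i _ h => hα l ?_)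
    exact rename_injective _ (fun a b hab => (Prod.mk.inj hab).1) (by rw [h, map_zero])
  refine ⟨P, hP, fun c hc => ⟨?_, fun l i => ?_⟩⟩
  · have h1 := left_ne_zero_of_mul (a := eval c G.det)
      (b := eval c (∏ l : ι, ∏ i : Fin n, rename (fun j => (j, i)) (α l)))
      (by rw [← map_mul]; exact hc)
    rw [RingHom.map_det] at h1
    have h2 : (eval c).mapMatrix G = Matrix.of fun i j => c (i, j) := by
      ext i j
      rw [RingHom.mapMatrix_apply, Matrix.map_apply]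
      show eval _ (X (i, j)) = _
      rw [eval_X, Matrix.of_apply]
    rwa [h2] at h1
  · have h1 := right_ne_zero_of_mul (a := eval c G.det)
      (b := eval c (∏ l : ι, ∏ i : Fin n, rename (fun j => (j, i)) (α l)))
      (by rw [← map_mul]; exact hc)
    rw [map_prod, Finset.prod_ne_zero_iff] at h1
    have h2 := h1 l (Finset.mem_univ _)
    rw [map_prod, Finset.prod_ne_zero_iff] at h2
    have h3 := h2 i (Finset.mem_univ _)
    rw [eval_rename] at h3
    exact h3

/-- `exists_alpha_all` for all matrices outside a hypersurface. -/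
theorem alpha_poly (m : Ideal R) (J : Bool → Ideal R)
    (u : Fin n → R) (hu : ∀ i, u i ∈ m) (hfin : ∀ l i, Module.Finite k (R ⧸ (J l ⊔ m ^ i)))
    (hB : ∀ l, ∑ i ∈ Finset.range (T₀ n), finrank k (R ⧸ (J l ⊔ m ^ i)) <
      (n + 7) * T₀ n ^ n) :
    ∃ P : MvPolynomial (Fin n × Fin n) k, P ≠ 0 ∧
      ∀ c : Fin n × Fin n → k, eval c P ≠ 0 →
        (Matrix.of fun i j => c (i, j)).det ≠ 0 ∧ ∀ l,
        LeadA k m (J l) (fun i => ∑ j, algebraMap k R
          ((Matrix.of fun i j => c (i, j))⁻¹ i j) * u j) (T₀ n) := by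
  classical
  have h := fun l => TGBC74.exists_alpha m (J l) u hu (hfin l) (hB l)
  choose d hd α hα0 hα a ha hαm using h
  obtain ⟨P, hP, hPc⟩ := matrix_poly n α hα0
  refine ⟨P, hP, fun c hc => ?_⟩
  obtain ⟨hdet, hβα⟩ := hPc c hc
  set B : Matrix (Fin n) (Fin n) k := Matrix.of fun i j => c (i, j) with hBdef
  have hBu : IsUnit B.det := isUnit_iff_ne_zero.2 hdet
  refine ⟨hdet, fun l => ?_⟩
  set u' : Fin n → R := fun i => ∑ j, algebraMap k R (B⁻¹ i j) * u j with hu'
  have huu : ∀ i, u i = ∑ j, algebraMap k R (B i j) * u' j := by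
    intro i
    have h1 : ∑ j, algebraMap k R (B i j) * u' j =
        ∑ l, algebraMap k R ((B * B⁻¹) i l) * u l := by
      simp only [hu', Finset.mul_sum, Matrix.mul_apply, map_sum, map_mul, Finset.sum_mul]
      rw [Finset.sum_comm]
      refine Finset.sum_congr rfl fun x _ => Finset.sum_congr rfl fun y _ => ?_
      ring
    rw [h1, Matrix.mul_nonsing_inv _ hBu]
    rw [Finset.sum_eq_single i]
    · rw [Matrix.one_apply_eq, map_one, one_mul]
    · intro j _ hj
      rw [Matrix.one_apply_ne (Ne.symm hj), map_zero, zero_mul]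
    · intro hh
      exact absurd (Finset.mem_univ _) hh
  let lin : Fin n → MvPolynomial (Fin n) k := fun i => ∑ j, C (B i j) * X j
  have hlin : ∀ i, (lin i).IsHomogeneous 1 := fun i =>
    IsHomogeneous.sum _ _ _ fun j _ => by
      have := (isHomogeneous_C (Fin n) (B i j)).mul (isHomogeneous_X k j)
      rwa [zero_add] at this
  have hα' : (aeval lin (α l)).IsHomogeneous (d l) := by
    have := (hα l).aeval lin hlin
    rwa [one_mul] at this
  refine ⟨d l, hd l, aeval lin (α l), hα', fun i₀ => ?_, a l, ha l, ?_⟩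
  · rw [← TGBC74.eval_single hα' i₀]
    have h1 : eval (Pi.single i₀ (1 : k)) (aeval lin (α l)) =
        eval (fun j => B j i₀) (α l) := by
      have h2 : (eval (Pi.single i₀ (1 : k)) : MvPolynomial (Fin n) k →+* k) (aeval lin (α l)) =
          eval (fun i => eval (Pi.single i₀ (1 : k)) (lin i)) (α l) := by
        rw [← coe_aeval_eq_eval, ← coe_aeval_eq_eval]
        change ((aeval (Pi.single i₀ (1 : k)) : MvPolynomial (Fin n) k →ₐ[k] k).comp
          (aeval lin)) (α l) = aeval (fun i => eval (Pi.single i₀ (1 : k)) (lin i)) (α l)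
        rw [comp_aeval]
        rfl
      rw [h2]
      congr 1
      congr 1
      funext i
      simp only [lin, map_sum, map_mul, eval_C, eval_X]
      rw [Finset.sum_eq_single i₀]
      · rw [Pi.single_eq_same, mul_one]
      · intro j _ hj
        rw [Pi.single_eq_of_ne hj, mul_zero]
      · intro hh
        exact absurd (Finset.mem_univ _) hh
    rw [h1]
    exact hβα l i₀
  · have h1 : aeval u' (aeval lin (α l)) = aeval u (α l) := by
      change ((aeval u' : MvPolynomial (Fin n) k →ₐ[k] R).comp (aeval lin)) (α l) = _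
      rw [comp_aeval]
      congr 1
      congr 1
      funext i
      rw [huu i]
      simp only [lin, map_sum, map_mul, aeval_X, algHom_C]
    rw [h1]
    exact hαm l

end Alg

/-- The coefficients after the linear change are algebraically independent. -/
theorem indep_lin {κ' : Subfield k} {n h : ℕ} {c : Fin (n + 1) × Fin h → k}
    {b : Fin n × Fin n → k} (hb : (Matrix.of fun i j => b (i, j)).det ≠ 0)
    (hc : AlgebraicIndependent (IntermediateField.adjoin κ' (Set.range b)) c) :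
    AlgebraicIndependent κ' fun p : Fin (n + 1) × Fin h => (Fin.cons (c (0, p.2))
      (lin (Matrix.of fun i j => b (i, j))⁻¹ fun i => c (i.succ, p.2)) : Fin (n + 1) → k) p.1 := by
  set B : Matrix (Fin n) (Fin n) k := Matrix.of fun i j => b (i, j) with hB
  let F := IntermediateField.adjoin κ' (Set.range b)
  have h1 : AlgebraicIndependent F fun p : Fin (n + 1) × Fin h => (Fin.cons (c (0, p.2))
      (lin B⁻¹ fun i => c (i.succ, p.2)) : Fin (n + 1) → k) p.1 := by
    refine indep_of_mem_adjoin hc fun p => ?_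
    obtain ⟨i, j⟩ := p
    refine Fin.cases ?_ (fun i => ?_) i
    · exact IntermediateField.subset_adjoin _ _ ⟨(0, j), rfl⟩
    · have h2 : c (i.succ, j) = ∑ l, B i l * (lin B⁻¹ fun i => c (i.succ, j)) l := by
        have h3 := congrFun (TGBC32.lin_inv (A := B⁻¹) (by
          exact (Matrix.isUnit_nonsing_inv_det B (isUnit_iff_ne_zero.2 hb)).ne_zero)
          (fun i : Fin n => c (i.succ, j))) i
        rw [Matrix.nonsing_inv_nonsing_inv B (isUnit_iff_ne_zero.2 hb)] at h3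
        rw [← h3, TGBC32.lin_apply]
        simp only [smul_eq_mul]
      rw [h2]
      refine sum_mem fun l _ => mul_mem ?_ ?_
      · exact (IntermediateField.adjoin F _).algebraMap_mem
          (⟨b (i, l), IntermediateField.subset_adjoin _ _ ⟨(i, l), rfl⟩⟩ : F)
      · exact IntermediateField.subset_adjoin _ _ ⟨(l.succ, j), rfl⟩
  exact h1.restrictScalars (algebraMap κ' F).injective

/-- `g1All` in free form. -/
theorem g1AllFree {k K : Type u} [Field k] [Field K] [Algebra k K] (n : ℕ) (hinf : Infinite k)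
    (htr : Algebra.trdeg k K = n) (q : K [⋀^Fin (n + 1)]→ₗ[k] K) (L : Submodule k K)
    (hL : L.FG) (h1L : 1 ∈ L)
    (hw : ∀ w : K, w ≠ 0 → ∃ g : Fin (n + 1) → K, (∀ j, g j ∈ (k ∙ w) * L) ∧ q g ≠ 0) (c' : ℕ)
    (hq : ∀ (M : ℕ) (g : Fin (n + 1) → K), (∀ j, g j ∈ L ^ M) → q g ∈ L ^ ((n + 1) * M + c'))
    (c_ : ℕ) (τ : K) (hτ : τ ≠ 0) (hτL : τ ∈ L ^ c_) (m₀ : ℕ) :
    ∃ m ≥ m₀, ∃ W ≤ L ^ m, W ≠ ⊥ ∧
    ∀ V : ValuationSubring K, ZDim k V → ∀ f₀, IsMin V (W * L) f₀ → ∀ (h : ℕ) (e : Fin h → K),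
      Submodule.span k (Set.range e) = hx V (W * L) → ∀ κ' : Subfield k, Big κ' →
      ∃ c : Fin (n + 1) × Fin h → k, AlgebraicIndependent κ' c ∧
        PtData q L W (m + 1) (c_ + m) τ V (T₀ n) (tup f₀ e c) ∧
        ∃ hg : ∀ l : Fin n, tup f₀ e c l.succ ∈ W * L,
          LeadA k (mx (W * L) (tup f₀ e c 0) (hx V (W * L)))
            (bx L (W * L) (m + 1) (tup f₀ e c 0) (q (tup f₀ e c))) (uvec (tup f₀ e c) hg)
            (T₀ n) ∧
          LeadA k (mx (W * L) (tup f₀ e c 0) (hx V (W * L)))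
            (tx L W (c_ + m) τ (tup f₀ e c 0)) (uvec (tup f₀ e c) hg) (T₀ n) := by
  classical
  obtain ⟨m, hm, W, hWL, hW0, hW⟩ := g1PtPoly n hinf htr q L hL h1L hw c' hq c_ τ hτ hτL
    (T₀ n) (TGBC74.T₀_pos n) m₀
  refine ⟨m, hm, W, hWL, hW0, fun V hV f₀ hf₀ h e he κ' hκ' => ?_⟩
  have hfdm : FiniteDimensional k (L ^ m : Submodule k K) := by
    have hfdL : FiniteDimensional k L := Module.Finite.iff_fg.2 hL
    exact ALB.finite_pow _ _
  have hWfd : FiniteDimensional k W := Submodule.finiteDimensional_of_le hWL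
  have hHfg : (W * L).FG := (Module.Finite.iff_fg.1 hWfd).mul hL
  obtain ⟨Φ, hΦ, hgen⟩ := hW V hV f₀ hf₀ h e he
  -- the leading forms of the tuple `g = tup f₀ e c`
  have key : ∀ g : Fin (n + 1) → K, PtData q L W (m + 1) (c_ + m) τ V (T₀ n) g →
      ∃ P : MvPolynomial (Fin n × Fin n) k, P ≠ 0 ∧
        ∀ b : Fin n × Fin n → k, MvPolynomial.eval b P ≠ 0 →
          (Matrix.of fun i j => b (i, j)).det ≠ 0 ∧
          PtData q L W (m + 1) (c_ + m) τ V (T₀ n) (linS (Matrix.of fun i j => b (i, j))⁻¹ g) ∧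
          ∃ hg : ∀ l : Fin n, linS (Matrix.of fun i j => b (i, j))⁻¹ g l.succ ∈ W * L,
            LeadA k (mx (W * L) (linS (Matrix.of fun i j => b (i, j))⁻¹ g 0) (hx V (W * L)))
              (bx L (W * L) (m + 1) (linS (Matrix.of fun i j => b (i, j))⁻¹ g 0)
                (q (linS (Matrix.of fun i j => b (i, j))⁻¹ g)))
              (uvec (linS (Matrix.of fun i j => b (i, j))⁻¹ g) hg) (T₀ n) ∧
            LeadA k (mx (W * L) (linS (Matrix.of fun i j => b (i, j))⁻¹ g 0) (hx V (W * L)))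
              (tx L W (c_ + m) τ (linS (Matrix.of fun i j => b (i, j))⁻¹ g 0))
              (uvec (linS (Matrix.of fun i j => b (i, j))⁻¹ g) hg) (T₀ n) := by
    intro g hg
    have hgH : ∀ l : Fin n, g l.succ ∈ W * L := fun l => hx_le (hg.mem l)
    set R := ch (W * L) (g 0) with hR
    set mm : Ideal R := mx (W * L) (g 0) (hx V (W * L)) with hmm
    let J : Bool → Ideal R := fun l =>
      if l = true then bx L (W * L) (m + 1) (g 0) (q g) else tx L W (c_ + m) τ (g 0)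
    have hu : ∀ l : Fin n, uvec g hgH l ∈ mm := fun l =>
      Ideal.subset_span ⟨g l.succ, hg.mem l, rfl⟩
    have hfin : ∀ l i, Module.Finite k (R ⧸ (J l ⊔ mm ^ i)) := fun l i =>
      finite_quot hV hHfg hg.min i _ le_sup_right
    have hB : ∀ l, ∑ i ∈ Finset.range (T₀ n), finrank k (R ⧸ (J l ⊔ mm ^ i)) <
        (n + 7) * T₀ n ^ n := by
      intro l
      refine lt_of_le_of_lt ?_ hg.loc
      rw [loc, Finset.sum_add_distrib]
      cases l
      · exact (Nat.le_add_left _ _).trans (Nat.le_add_left _ _)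
      · exact (Nat.le_add_right _ _).trans (Nat.le_add_left _ _)
    obtain ⟨P, hP, hPb⟩ := alpha_poly mm J (uvec g hgH) hu hfin hB
    refine ⟨P, hP, fun b hb => ?_⟩
    obtain ⟨hdet, hlead⟩ := hPb b hb
    set A : Matrix (Fin n) (Fin n) k := (Matrix.of fun i j => b (i, j))⁻¹ with hAdef
    have hA : A.det ≠ 0 :=
      (Matrix.isUnit_nonsing_inv_det _ (isUnit_iff_ne_zero.2 hdet)).ne_zero
    have hmem' : ∀ l : Fin n, linS A g l.succ ∈ hx V (W * L) := by
      intro l
      rw [TGBC32.linS_succ]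
      exact TGBC32.lin_mem A hg.mem l
    have hgH' : ∀ l : Fin n, linS A g l.succ ∈ W * L := fun l => hx_le (hmem' l)
    have hspan : Submodule.span k (Set.range fun l : Fin n => linS A g l.succ) =
        Submodule.span k (Set.range fun l : Fin n => g l.succ) :=
      TGBC32.span_lin hA fun l : Fin n => g l.succ
    have hbx : ∀ f₀ : K, bx L (W * L) (m + 1) f₀ (q (linS A g)) =
        bx L (W * L) (m + 1) f₀ (q g) :=
      TGBC32.bx_linS q hA g L (W * L) (m + 1)
    refine ⟨hdet, ⟨hg.min, hmem', TGBC32.alt_linS_ne hA hg.q0, ?_, hg.mult, ?_⟩, hgH', ?_, ?_⟩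
    · rw [hspan]
      exact hg.red
    · have h1 := hg.loc
      rw [loc] at h1 ⊢
      rw [TGBC32.linS_zero, hbx]
      exact h1
    · rw [hbx]
      obtain ⟨b, hb, α, hα, hα0, a, ha, hm⟩ := hlead true
      exact ⟨b, hb, α, hα, hα0, a, ha, by rw [uvec_linS' A g hgH hgH']; exact hm⟩
    · obtain ⟨b, hb, α, hα, hα0, a, ha, hm⟩ := hlead false
      exact ⟨b, hb, α, hα, hα0, a, ha, by rw [uvec_linS' A g hgH hgH']; exact hm⟩
  have hΨ : ∀ c : Fin (n + 1) × Fin h → k, ∃ P : MvPolynomial (Fin n × Fin n) k,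
      (MvPolynomial.eval c Φ ≠ 0 → P ≠ 0) ∧ (MvPolynomial.eval c Φ ≠ 0 →
        ∀ b : Fin n × Fin n → k, MvPolynomial.eval b P ≠ 0 →
          (Matrix.of fun i j => b (i, j)).det ≠ 0 ∧
          PtData q L W (m + 1) (c_ + m) τ V (T₀ n)
            (linS (Matrix.of fun i j => b (i, j))⁻¹ (tup f₀ e c)) ∧
          ∃ hg : ∀ l : Fin n,
            linS (Matrix.of fun i j => b (i, j))⁻¹ (tup f₀ e c) l.succ ∈ W * L,
            LeadA k (mx (W * L) (linS (Matrix.of fun i j => b (i, j))⁻¹ (tup f₀ e c) 0)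
                (hx V (W * L)))
              (bx L (W * L) (m + 1) (linS (Matrix.of fun i j => b (i, j))⁻¹ (tup f₀ e c) 0)
                (q (linS (Matrix.of fun i j => b (i, j))⁻¹ (tup f₀ e c))))
              (uvec (linS (Matrix.of fun i j => b (i, j))⁻¹ (tup f₀ e c)) hg) (T₀ n) ∧
            LeadA k (mx (W * L) (linS (Matrix.of fun i j => b (i, j))⁻¹ (tup f₀ e c) 0)
                (hx V (W * L)))
              (tx L W (c_ + m) τ (linS (Matrix.of fun i j => b (i, j))⁻¹ (tup f₀ e c) 0))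
              (uvec (linS (Matrix.of fun i j => b (i, j))⁻¹ (tup f₀ e c)) hg) (T₀ n)) := by
    intro c
    by_cases hc : MvPolynomial.eval c Φ ≠ 0
    · obtain ⟨P, hP, hPb⟩ := key _ (hgen c hc)
      exact ⟨P, fun _ => hP, fun _ => hPb⟩
    · exact ⟨0, fun h => absurd h hc, fun h => absurd h hc⟩
  choose Ψ hΨ0 hΨ using hΨ
  obtain ⟨c, b, hcΦ, hbΨ, -, -, hind⟩ := hκ'.exists_generic_pair hΦ Ψ hΨ0
  obtain ⟨hdet, hpt, hgH, h1, h2⟩ := hΨ c hcΦ b hbΨ
  have hlt := TGBC32.linS_tup (Matrix.of fun i j => b (i, j))⁻¹ f₀ e c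
  refine ⟨_, indep_lin hdet hind, ?_⟩
  rw [← hlt]
  exact ⟨hpt, hgH, h1, h2⟩

/-- **J9 in free form.** -/
theorem j9free [IsAlgClosed k] (hNPt : RowNPt k K) (hProper : RowProper k K) (hRho : RowRho k K)
    (hSep : RowSep k K) (hDiv : RowDiv k K) (hIR : RowIR k K)
    (hK : (⊤ : IntermediateField k K).FG) (p : ℕ) (hp : p.Prime) [CharP k p] {n : ℕ}
    (htr : Algebra.trdeg k K = (n + 1 : ℕ)) (hC : C₁ (n + 1) < p) {A₀ : Subalgebra k K}
    {Z : Finset K} (B : BData (n + 1) A₀ Z) (m₀ : ℕ) :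
    ∃ m ≥ m₀, ∃ W ≤ B.L ^ m, W ≠ ⊥ ∧
      ∀ V : ValuationSubring K, ZDim k V → ∀ f₀ : K, IsMin V (W * B.L) f₀ →
        ∀ (h : ℕ) (e : Fin h → K), Submodule.span k (Set.range e) = hx V (W * B.L) →
        ∀ κ' : Subfield k, Big κ' → ∃ c : Fin (n + 2) × Fin h → k, AlgebraicIndependent κ' c ∧
          ∀ V' : ValuationSubring K, ZDim k V' → hx V' (W * B.L) = hx V (W * B.L) →
            ∀ res : NV V' (W * B.L) →ₐ[k] k, IsResOf V' res →
            ∀ u : Fin (n + 1) → NV V' (W * B.L),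
              (∀ l, (u l : K) = tup f₀ e c l.succ / tup f₀ e c 0) →
              PtOut res u {E | IsDiv (NV V' (W * B.L)) E ∧ Tp B.L (B.e + 1 + m) B.τ W E}
                (C₁ (n + 1)) (T₀ (n + 1) * (1 + C₁ (n + 1)) * C₁ (n + 1))
                (T₀ (n + 1) * C₁ (n + 1)) := by
  have hinf : Infinite k := IsAlgClosed.instInfinite
  have hτL : B.τ ∈ B.L ^ (B.e + 1) :=
    TGBC30.pow_le_pow_right B.one_mem (Nat.le_succ _) B.τ_mem
  obtain ⟨m, hm, W, hWL, hW0, hW⟩ := g1AllFree (n + 1) hinf htr (qmap B.D (B.τ ^ (n + 1))) B.L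
    B.L_fg B.one_mem B.q1 B.c' B.q2 (B.e + 1) B.τ B.τ_ne hτL m₀
  refine ⟨m, hm, W, hWL, hW0, fun V hV f₀ hf₀ h e he κ' hκ' => ?_⟩
  obtain ⟨c, hc, hg, hgH, hJ, hT⟩ := hW V hV f₀ hf₀ h e he κ' hκ'
  refine ⟨c, hc, fun V' hV' hVV res hres u hu => ?_⟩
  exact ptOut_of hNPt hProper hRho hSep hDiv hIR hK p hp htr hC B hWL hW0 hg hgH hJ hT hV' hVV
    hres hu

end Pool.Agent.TGBC
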