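import Pool.Agent.Lib.TG_h35.FOD2
import Pool.Agent.Lib.TGJ.Rank_h91
import Pool.Agent.Lib.TG.Defs

/-!
# TANK G: residues of the elements of a field of definition; coefficients in general position
-/

set_option autoImplicit false

namespace Pool.Agent.TGFOD

open scoped TensorProduct
open Module Cardinal
open scoped IntermediateField.algebraAdjoinAdjoin
open Pool.Agent.TG (Ov)
open Pool.Agent.TGJ

universe u

section Res

variable {k K : Type u} [Field k] [Field K] [Algebra k K] {κ : Subfield k}

/-- The elements of `k` which are residues of elements of `E`. -/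
def Res (k : Type u) {K : Type u} [Field k] [Field K] [Algebra k K] (V : ValuationSubring K)
    (E : Set K) : Set k :=
  {c | ∃ e ∈ E, V.valuation (e - algebraMap k K c) < 1}

theorem val_aeval {ι : Type*} {V : ValuationSubring K} (hV : Ov k V) {c : ι → k} {e : ι → K}
    (h : ∀ i, V.valuation (e i - algebraMap k K (c i)) < 1) (P : MvPolynomial ι κ) :
    V.valuation (MvPolynomial.aeval e P - algebraMap k K (MvPolynomial.aeval c P)) < 1 := by
  have hk : ∀ c : k, V.valuation (algebraMap k K c) ≤ 1 := fun c =>
    (V.valuation_le_one_iff _).2 (hV c)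
  induction P using MvPolynomial.induction_on with
  | C a =>
    rw [MvPolynomial.algHom_C, MvPolynomial.algHom_C, ← IsScalarTower.algebraMap_apply, sub_self,
      map_zero]
    exact zero_lt_one
  | add p q hp hq =>
    have h1 : MvPolynomial.aeval e (p + q) - algebraMap k K (MvPolynomial.aeval c (p + q)) =
        (MvPolynomial.aeval e p - algebraMap k K (MvPolynomial.aeval c p)) +
        (MvPolynomial.aeval e q - algebraMap k K (MvPolynomial.aeval c q)) := by
      rw [map_add, map_add, map_add]; ring
    rw [h1]
    exact Valuation.map_add_lt _ hp hq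
  | mul_X p i hp =>
    have h1 : MvPolynomial.aeval e (p * MvPolynomial.X i) -
        algebraMap k K (MvPolynomial.aeval c (p * MvPolynomial.X i)) =
        (MvPolynomial.aeval e p - algebraMap k K (MvPolynomial.aeval c p)) * e i +
        algebraMap k K (MvPolynomial.aeval c p) * (e i - algebraMap k K (c i)) := by
      rw [map_mul, map_mul, MvPolynomial.aeval_X, MvPolynomial.aeval_X, map_mul]; ring
    have h2 : V.valuation (e i) ≤ 1 := by
      have h3 : e i = (e i - algebraMap k K (c i)) + algebraMap k K (c i) := by ring
      rw [h3]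
      exact (Valuation.map_add _ _ _).trans (max_le (h i).le (hk _))
    rw [h1]
    refine Valuation.map_add_lt _ ?_ ?_
    · rw [map_mul]
      exact mul_lt_one_of_lt_of_le hp h2
    · rw [map_mul, mul_comm]
      exact mul_lt_one_of_lt_of_le (h i) (hk _)

/-- Representatives of algebraically independent residues are algebraically independent. -/
theorem indep_of_residue {ι : Type*} {V : ValuationSubring K} (hV : Ov k V) {c : ι → k}
    {e : ι → K} (h : ∀ i, V.valuation (e i - algebraMap k K (c i)) < 1)
    (hc : AlgebraicIndependent κ c) : AlgebraicIndependent κ e := by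
  rw [algebraicIndependent_iff_injective_aeval, injective_iff_map_eq_zero]
  intro P hP
  have h1 := val_aeval hV h P
  rw [hP, zero_sub, Valuation.map_neg] at h1
  have h2 : MvPolynomial.aeval c P = 0 := by
    by_contra hne
    have h3 : V.valuation (algebraMap k K (MvPolynomial.aeval c P)⁻¹) ≤ 1 :=
      (V.valuation_le_one_iff _).2 (hV _)
    have h4 : V.valuation (algebraMap k K (MvPolynomial.aeval c P)) *
        V.valuation (algebraMap k K (MvPolynomial.aeval c P)⁻¹) = 1 := by
      rw [← map_mul, ← map_mul, mul_inv_cancel₀ hne, map_one, map_one]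
    have h5 := mul_lt_one_of_lt_of_le h1 h3
    rw [h4] at h5
    exact lt_irrefl _ h5
  exact (injective_iff_map_eq_zero _).1 hc P h2

variable {E : IntermediateField κ K} {n : ℕ} {x : Fin n → K}

/-- The transcendence degree of the field of definition. -/
theorem FD.card_le (h : FD κ E x) {ι : Type} [Fintype ι] {e : ι → K} (he : ∀ i, e i ∈ E)
    (hi : AlgebraicIndependent κ e) : Fintype.card ι ≤ n := by
  classical
  rw [algebraicIndependent_iff_frk] at hi
  rw [← hi]
  have h1 : frk κ (Finset.univ.image e) ≤ frk κ (Finset.univ.image x) := by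
    apply frk_le_of_algebraic
    intro a ha
    obtain ⟨i, -, rfl⟩ := Finset.mem_image.1 ha
    have h2 : ((Finset.univ.image x : Finset K) : Set K) = Set.range x := by
      simp
    rw [h2]
    exact h.alg _ (he i)
  exact h1.trans ((frk_le_card κ _).trans (Finset.card_image_le.trans (by simp)))

/-- Residues of elements of a field of definition have transcendence degree at most `n`. -/
theorem FD.frk_res_le (h : FD κ E x) {V : ValuationSubring K} (hV : Ov k V) (s : Finset k)
    (hs : (s : Set k) ⊆ Res k V (E : Set K)) : frk κ s ≤ n := by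
  classical
  obtain ⟨b, hbs, hcard, hb, -⟩ := exists_basis κ s
  rw [← hcard]
  have h1 : ∀ c : b, ∃ e ∈ E, V.valuation (e - algebraMap k K (c : k)) < 1 := fun c =>
    hs (Finset.mem_coe.2 (hbs c.2))
  choose e he hce using h1
  let g : Fin b.card ≃ b := b.equivFin.symm
  have h2 : AlgebraicIndependent κ fun i => e (g i) := by
    have h3 : AlgebraicIndependent κ fun i => ((g i : b) : k) := hb.comp g g.injective
    exact indep_of_residue hV (fun i => hce (g i)) h3
  have h4 := h.card_le (fun i => he (g i)) h2
  simpa using h4

end Res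

section Coeff

variable {k : Type u} [Field k]

open scoped Classical in
theorem mem_acl_iff_frk {κ₀ : Subfield k} {s : Finset k} {c : k} :
    c ∈ acl κ₀ (s : Set k) ↔ frk κ₀ (insert c s) = frk κ₀ s := by
  rw [mem_acl, frk_insert_eq_iff]

open scoped Classical in
/-- If `a` is algebraically independent over `κ₀` and `s` has transcendence degree `≤ n`, then among
any `n + 1` of the `a i` there is one which is not algebraic over `s` and the other `a j`. -/
theorem exists_notMem_acl {κ₀ : Subfield k} {ι : Type} {a : ι → k}
    (ha : AlgebraicIndependent κ₀ a) {n : ℕ} (s : Finset k) (hs : frk κ₀ s ≤ n) (P B : Finset ι)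
    (hd : Disjoint P B) (hB : n < B.card) :
    ∃ i ∈ B, a i ∉ acl κ₀ ((s : Set k) ∪ a '' (P : Set ι)) := by
  by_contra hcon
  push Not at hcon
  have h0 : ((s ∪ P.image a : Finset k) : Set k) = (s : Set k) ∪ a '' (P : Set ι) := by simp
  have h1 : frk κ₀ ((s ∪ P.image a) ∪ B.image a) = frk κ₀ (s ∪ P.image a) := by
    rw [frk_union_eq_iff]
    intro c hc
    obtain ⟨i, hi, rfl⟩ := Finset.mem_image.1 hc
    have h2 := hcon i hi
    rw [mem_acl] at h2
    rw [h0]
    exact h2
  have h2 : frk κ₀ (s ∪ P.image a) ≤ n + P.card := by
    have h3 := frk_union_le_add_card κ₀ s (P.image a)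
    have h4 := Finset.card_image_le (s := P) (f := a)
    omega
  have h3 : frk κ₀ ((P ∪ B).image a) = (P ∪ B).card :=
    (algebraicIndepOn_iff_frk κ₀ a (P ∪ B)).1 (ha.comp _ Subtype.val_injective)
  have h4 : (P ∪ B).card = P.card + B.card := Finset.card_union_of_disjoint hd
  have h5 : frk κ₀ ((P ∪ B).image a) ≤ frk κ₀ ((s ∪ P.image a) ∪ B.image a) := by
    apply frk_mono
    intro c hc
    rw [Finset.image_union] at hc
    rcases Finset.mem_union.1 hc with hc | hc
    · exact Finset.mem_union_left _ (Finset.mem_union_right _ hc)
    · exact Finset.mem_union_right _ hc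
  omega

end Coeff

end Pool.Agent.TGFOD
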