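import Pool.Agent.Lib.TG_h35.Semi
import Pool.Agent.Lib.TG_h35.J7b
import Pool.Agent.Lib.TGJ_h78.Aut

/-!
# TANK G, block C, row R12 (a): enough automorphisms

The coefficients of a block which are not algebraic over the rest have infinitely many conjugates
under the automorphisms which preserve the point and fix the rest.
-/

set_option autoImplicit false

namespace Pool.Agent.TGFOD

open Pool.Agent.TG (Ov ZDim IsMin IsModel NV RV Fin')
open Pool.Agent.TGJ (Mov Auts mem_of_finite_orbit)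

universe u

/-- The orbit under the stabiliser of an element with a finite orbit is infinite. -/
theorem infinite_stab {G X Y : Type*} [Group G] {α : G → X → X}
    (hα : ∀ g h x, α (g * h) x = α g (α h x)) (hα1 : ∀ x, α 1 x = x) {β : G → Y → Y}
    (hβ : ∀ g h y, β (g * h) y = β g (β h y)) (s : X) (hs : (Set.range fun g => α g s).Finite)
    (a : Y) (ha : (Set.range fun g => β g a).Infinite) :
    {b : Y | ∃ g, α g s = s ∧ b = β g a}.Infinite := by
  intro hfin
  apply ha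
  have h1 : ∀ t : X, ∃ g : G, (∃ g', α g' s = t) → α g s = t := by
    intro t
    by_cases h : ∃ g', α g' s = t
    · obtain ⟨g, hg⟩ := h
      exact ⟨g, fun _ => hg⟩
    · exact ⟨1, fun h' => absurd h' h⟩
  choose r hr using h1
  refine (hs.biUnion (t := fun t => β (r t) '' {b : Y | ∃ g, α g s = s ∧ b = β g a})
    fun t _ => hfin.image _).subset ?_
  rintro _ ⟨g, rfl⟩
  refine Set.mem_biUnion ⟨g, rfl⟩ ⟨β ((r (α g s))⁻¹ * g) a, ⟨(r (α g s))⁻¹ * g, ?_, rfl⟩, ?_⟩
  · have h2 : α (r (α g s)) s = α g s := hr _ ⟨g, rfl⟩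
    calc α ((r (α g s))⁻¹ * g) s = α (r (α g s))⁻¹ (α g s) := hα _ _ _
      _ = α (r (α g s))⁻¹ (α (r (α g s)) s) := congrArg _ h2.symm
      _ = s := by rw [← hα, inv_mul_cancel, hα1]
  · rw [← hβ, mul_inv_cancel_left]

variable {k K : Type u} [Field k] [Field K] [Algebra k K]

/-- Automorphisms over a field of definition. -/
theorem mov_of_FD [IsAlgClosed k] {κ : Subfield k} {E : IntermediateField κ K} {n : ℕ}
    {x : Fin n → K} (h : FD κ E x) {S : Subalgebra k K} {F : Set K} (hF : F ⊆ E)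
    {Θ : Set (ValuationSubring K)}
    (hΘ : ∀ (τ : K ≃+* K) (σ : k ≃+* k), SL τ σ → (∀ e ∈ E, τ e = e) → (∀ x, x ∈ S ↔ τ x ∈ S) →
      ∀ v, v ∈ Θ ↔ v.comap (τ : K →+* K) ∈ Θ)
    (hfin : (Set.range fun σ : k ≃ₐ[κ] k => h.act σ '' (S : Set K)).Finite) {N : ℕ}
    {a : Fin N → k} (ha : ∃ j, a j ∉ κ) : Mov S F Θ a := by
  have hcl := h.closed
  have h1 := infinite_stab (G := k ≃ₐ[κ] k) (α := fun σ (A : Set K) => h.act σ '' A)
    (fun σ τ A => by
      ext y
      constructor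
      · rintro ⟨z, hz, rfl⟩
        exact ⟨h.act τ z, ⟨z, hz, rfl⟩, (h.act_mul σ τ z).symm⟩
      · rintro ⟨_, ⟨z, hz, rfl⟩, rfl⟩
        exact ⟨z, hz, h.act_mul σ τ z⟩)
    (fun A => by
      ext y
      constructor
      · rintro ⟨z, hz, rfl⟩
        rwa [h.act_one]
      · intro hy
        exact ⟨y, hy, h.act_one y⟩)
    (β := fun σ (b : Fin N → k) i => σ (b i)) (fun σ τ b => rfl) (S : Set K) hfin a
    (by
      intro hfin'
      obtain ⟨j, hj⟩ := ha
      obtain ⟨c, hc⟩ := mem_of_finite_orbit (κ := κ) (t := a j)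
        (hfin'.image fun b : Fin N → k => b j) fun σ => ⟨_, ⟨σ, rfl⟩, rfl⟩
      apply hj
      rw [← hc]
      exact c.2)
  refine h1.mono ?_
  rintro _ ⟨σ, hσ, rfl⟩
  have hS : ∀ x, x ∈ S ↔ h.act σ x ∈ S := by
    intro x
    constructor
    · intro hx
      have h2 : h.act σ x ∈ h.act σ '' (S : Set K) := ⟨x, hx, rfl⟩
      rw [hσ] at h2
      exact h2
    · intro hx
      have h2 : h.act σ x ∈ h.act σ '' (S : Set K) := by rw [hσ]; exact hx
      obtain ⟨y, hy, hyx⟩ := h2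
      rwa [← (h.act σ).injective hyx]
  refine ⟨(h.act σ, (σ : k ≃+* k)), ⟨fun c => h.act_algebraMap σ c, hS, ?_, ?_⟩, rfl⟩
  · intro y hy
    exact h.act_mem σ (hF hy)
  · exact hΘ (h.act σ) (σ : k ≃+* k) (fun c => h.act_algebraMap σ c)
      (fun e he => h.act_mem σ he) hS

/-- The conjugates of the point `NV V W` are finitely many, if `W` and the image of the point in
the model are defined over `κ`. -/
theorem finite_orbit_NV [IsAlgClosed k] (hK : (⊤ : IntermediateField k K).FG) {κ : Subfield k}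
    {E : IntermediateField κ K} {n : ℕ} {x : Fin n → K} (h : FD κ E x) {ι : Type*} {w : ι → K}
    (hw : ∀ i, w i ∈ E) {W : Submodule k K} (hW : W = Submodule.span k (Set.range w))
    (hM : IsModel W) (hfin : Fin' W) {V : ValuationSubring K} (hV : ZDim k V) {b : ι}
    (hb : w b ≠ 0) {s : ι → k} (hs : ∀ i, V.valuation (w i / w b - algebraMap k K (s i)) < 1)
    (hsκ : ∀ i, s i ∈ κ) :
    (Set.range fun σ : k ≃ₐ[κ] k => h.act σ '' (NV V W : Set K)).Finite := by
  have hwW : ∀ i, w i ∈ W := fun i => by rw [hW]; exact Submodule.subset_span ⟨i, rfl⟩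
  have hmin : IsMin V W (w b) := by
    rw [hW]
    refine TG.isMin_of_span hV.ov (Submodule.subset_span ⟨b, rfl⟩) hb ?_
    rintro _ ⟨i, rfl⟩
    have h1 : w i / w b = (w i / w b - algebraMap k K (s i)) + algebraMap k K (s i) := by ring
    rw [h1]
    exact V.add_mem _ _ ((V.valuation_le_one_iff _).1 (hs i).le) (hV.ov _)
  have hstab : ∀ σ : k ≃ₐ[κ] k, ∀ y, y ∈ W → h.act σ y ∈ W := by
    intro σ y hy
    rw [hW] at hy
    induction hy using Submodule.span_induction with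
    | mem z hz =>
      obtain ⟨i, rfl⟩ := hz
      rw [h.act_mem σ (hw i)]
      exact hwW i
    | zero => rw [map_zero]; exact W.zero_mem
    | add z z' _ _ hz hz' => rw [map_add]; exact W.add_mem hz hz'
    | smul c z _ hz =>
      rw [Algebra.smul_def, map_mul, h.act_algebraMap, ← Algebra.smul_def]
      exact W.smul_mem _ hz
  have hstab' : ∀ σ : k ≃ₐ[κ] k, ∀ y, y ∈ W ↔ h.act σ y ∈ W := by
    intro σ y
    refine ⟨hstab σ y, fun hy => ?_⟩
    have h1 := hstab σ⁻¹ _ hy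
    rw [← h.act_mul, inv_mul_cancel, h.act_one] at h1
    exact h1
  refine ((finite_NV hK hM hfin hV).image fun S : Subalgebra k K => (S : Set K)).subset ?_
  rintro _ ⟨σ, rfl⟩
  -- the valuation ring of the conjugate point
  let τ := h.act σ⁻¹
  have hSL : SL τ ((σ⁻¹ : k ≃ₐ[κ] k) : k ≃+* k) := fun c => h.act_algebraMap σ⁻¹ c
  have hττ : ∀ y, h.act σ (τ y) = y := fun y => by
    rw [← h.act_mul, mul_inv_cancel, h.act_one]
  have hττ' : ∀ y, τ (h.act σ y) = y := fun y => by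
    rw [← h.act_mul, inv_mul_cancel, h.act_one]
  have hV' : ZDim k (cm τ V) := hSL.zdim hV
  have hagr : ∀ g ∈ W, g / w b ∈ agr hV.ov hV'.ov := by
    intro g hg
    rw [hW] at hg
    induction hg using Submodule.span_induction with
    | mem z hz =>
      obtain ⟨i, rfl⟩ := hz
      refine ⟨s i, hs i, ?_⟩
      rw [val_lt_iff]
      have h2 : τ (w i / w b - algebraMap k K (s i)) = w i / w b - algebraMap k K (s i) := by
        refine h.act_mem _ ?_
        exact sub_mem (div_mem (hw i) (hw b)) (E.algebraMap_mem ⟨s i, hsκ i⟩)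
      rw [h2]
      exact hs i
    | zero => rw [zero_div]; exact zero_mem _
    | add z z' _ _ hz hz' => rw [add_div]; exact add_mem hz hz'
    | smul c z _ hz =>
      rw [smul_div_assoc]
      exact Subalgebra.smul_mem _ hz c
  obtain ⟨hmin', hRV⟩ := RV_eq_of_agr hV.ov hV'.ov hmin hagr
  refine ⟨NV (cm τ V) W, ⟨cm τ V, hV', hRV.symm, rfl⟩, ?_⟩
  ext y
  constructor
  · intro hy
    have h3 := (hSL.mem_NV (hstab' _) hM hV.ov).1 hy
    exact ⟨τ y, h3, hττ y⟩
  · rintro ⟨z, hz, rfl⟩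
    refine (hSL.mem_NV (hstab' _) hM hV.ov).2 ?_
    rw [hττ']
    exact hz

/-- **Row R12 (a).** -/
theorem r12a [IsAlgClosed k] (hK : (⊤ : IntermediateField k K).FG) {κ₀ : Subfield k}
    {E₀ : IntermediateField κ₀ K} {n : ℕ} {x : Fin n → K} (h : FD κ₀ E₀ x) {ι : Type*}
    {w : ι → K} (hw : ∀ i, w i ∈ E₀) {W : Submodule k K}
    (hW : W = Submodule.span k (Set.range w)) (hM : IsModel W) (hfin : Fin' W)
    {V : ValuationSubring K} (hV : ZDim k V) {b : ι} (hb : w b ≠ 0) {s : ι → k}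
    (hs : ∀ i, V.valuation (w i / w b - algebraMap k K (s i)) < 1) {T : Set k}
    (hsT : Set.range s ⊆ T) {N : ℕ} {α : Fin N → k} (hα : ∃ j, α j ∉ acl κ₀ T) {F : Set K}
    (hF : F ⊆ extE E₀ (acl κ₀ T)) {Θ : Set (ValuationSubring K)}
    (hΘ : ∀ (τ : K ≃+* K) (σ : k ≃+* k), SL τ σ → (∀ e ∈ E₀, τ e = e) →
      (∀ x, x ∈ NV V W ↔ τ x ∈ NV V W) → ∀ v, v ∈ Θ ↔ v.comap (τ : K →+* K) ∈ Θ) :
    Mov (NV V W) F Θ α := by
  have h1 : FD (acl κ₀ T) (extE E₀ (acl κ₀ T)) x := h.mono (le_acl κ₀ T) (acl_closed κ₀ T)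
  have hsub : (E₀ : Set K) ⊆ extE E₀ (acl κ₀ T) := IntermediateField.subset_adjoin _ _
  refine mov_of_FD h1 hF (fun τ σ h2 h3 h4 => hΘ τ σ h2 (fun e he => h3 e (hsub he)) h4) ?_ hα
  exact finite_orbit_NV hK h1 (fun i => hsub (hw i)) hW hM hfin hV hb hs
    fun i => subset_acl κ₀ T (hsT ⟨i, rfl⟩)

end Pool.Agent.TGFOD
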