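import Pool.Agent.Lib.TG_h3.Spec

/-!
# TANK G: fields of definition
-/

set_option autoImplicit false

namespace Pool.Agent.TGFOD

open scoped TensorProduct
open Module
open scoped IntermediateField.algebraAdjoinAdjoin

universe u

section LD

variable {κ k E K : Type u} [Field κ] [Field k] [Field E] [Field K] [Algebra κ k] [Algebra κ E]
  [Algebra k K] [Algebra E K] [Algebra κ K] [IsScalarTower κ k K] [IsScalarTower κ E K]

variable (κ k E K) in
/-- The product map. -/
noncomputable def pm : k ⊗[κ] E →ₐ[k] K :=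
  Algebra.TensorProduct.lift (Algebra.ofId k K) (IsScalarTower.toAlgHom κ E K)
    fun _ _ => Commute.all _ _

theorem pm_tmul (c : k) (e : E) : pm κ k E K (c ⊗ₜ e) = algebraMap k K c * algebraMap E K e := by
  rw [pm, Algebra.TensorProduct.lift_tmul]
  rfl

/-- Algebraic independence over the small field. -/
theorem indep_small {ι : Type*} {x : ι → E}
    (hx : AlgebraicIndependent k fun i => algebraMap E K (x i)) : AlgebraicIndependent κ x := by
  have h1 : AlgebraicIndependent κ fun i => algebraMap E K (x i) :=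
    hx.restrictScalars (algebraMap κ k).injective
  have h2 := (IsScalarTower.toAlgHom κ E K).algebraicIndependent_iff
    (algebraMap E K).injective (x := x)
  exact h2.1 h1

/-- Algebraically free extensions of an algebraically closed field are linearly disjoint. -/
theorem pm_injective [IsAlgClosed κ] {ι : Type*} {x : ι → E}
    (hx : AlgebraicIndependent k fun i => algebraMap E K (x i))
    (halg : ∀ e : E, IsAlgebraic (Algebra.adjoin κ (Set.range x)) e) :
    Function.Injective (pm κ k E K) := by
  classical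
  have hdom : IsDomain (k ⊗[κ] E) := TGD.isDomain_tensor
  let j : MvPolynomial ι k →ₐ[k] k ⊗[κ] E := MvPolynomial.aeval fun i => 1 ⊗ₜ x i
  have hj : ∀ P, pm κ k E K (j P) = MvPolynomial.aeval (fun i => algebraMap E K (x i)) P := by
    intro P
    have h1 : (pm κ k E K).comp j = MvPolynomial.aeval (fun i => algebraMap E K (x i)) := by
      ext i
      simp [j, pm_tmul]
    exact DFunLike.congr_fun h1 P
  let _ : Algebra (MvPolynomial ι k) (k ⊗[κ] E) := j.toRingHom.toAlgebra
  have hjm : ∀ P, algebraMap (MvPolynomial ι k) (k ⊗[κ] E) P = j P := fun P => rfl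
  have hxκ : AlgebraicIndependent κ x := indep_small hx
  have hj2 : ∀ P : MvPolynomial ι κ, j (MvPolynomial.map (algebraMap κ k) P) =
      1 ⊗ₜ (MvPolynomial.aeval x P) := by
    intro P
    induction P using MvPolynomial.induction_on with
    | C c =>
      rw [MvPolynomial.map_C, MvPolynomial.algHom_C, MvPolynomial.algHom_C,
        Algebra.TensorProduct.algebraMap_apply, Algebra.algebraMap_self, RingHom.id_apply,
        Algebra.algebraMap_eq_smul_one, Algebra.algebraMap_eq_smul_one, TensorProduct.smul_tmul]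
    | add p q hp hq => rw [map_add, map_add, hp, hq, map_add, TensorProduct.tmul_add]
    | mul_X p i hp =>
      rw [map_mul, map_mul, hp, map_mul, MvPolynomial.map_X]
      simp [j]
  have hsmall : ∀ e : E, IsAlgebraic (MvPolynomial ι k) ((1 : k) ⊗ₜ[κ] e) := by
    intro e
    have h2 := (halg e).ringHom_of_comp_eq (S := MvPolynomial ι k) (B := k ⊗[κ] E)
      ((MvPolynomial.map (algebraMap κ k)).comp
        (hxκ.aevalEquiv.symm : _ →+* MvPolynomial ι κ))
      (Algebra.TensorProduct.includeRight : E →ₐ[κ] k ⊗[κ] E)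
      (by
        intro a b hab
        have h3 := MvPolynomial.map_injective _ (algebraMap κ k).injective hab
        exact hxκ.aevalEquiv.symm.injective h3)
      (by
        ext a
        obtain ⟨P, rfl⟩ := hxκ.aevalEquiv.surjective a
        simp only [RingHom.comp_apply, RingHom.coe_coe, AlgEquiv.symm_apply_apply, hjm, hj2]
        rw [Algebra.TensorProduct.includeRight_apply, hxκ.algebraMap_aevalEquiv P])
    exact h2
  have hall : ∀ w : k ⊗[κ] E, IsAlgebraic (MvPolynomial ι k) w := by
    intro w
    induction w using TensorProduct.induction_on with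
    | zero => exact isAlgebraic_zero
    | tmul c e =>
      have h3 : c ⊗ₜ[κ] e = algebraMap (MvPolynomial ι k) (k ⊗[κ] E) (MvPolynomial.C c) *
          ((1 : k) ⊗ₜ[κ] e) := by
        rw [hjm, MvPolynomial.algHom_C, Algebra.TensorProduct.algebraMap_apply,
          Algebra.TensorProduct.tmul_mul_tmul]
        simp
      rw [h3]
      exact isAlgebraic_algebraMap _ |>.mul (hsmall e)
    | add a b ha hb => exact ha.add hb
  rw [injective_iff_map_eq_zero]
  intro w hw
  by_contra hne
  obtain ⟨r, hr0, z, hz⟩ := (hall w).exists_nonzero_dvd (mem_nonZeroDivisors_of_ne_zero hne)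
  rw [hjm] at hz
  have h4 : pm κ k E K (j r) = 0 := by rw [hz, map_mul, hw, zero_mul]
  rw [hj] at h4
  exact hr0 ((injective_iff_map_eq_zero _).1 hx r h4)

/-- The linear disjointness in terms of families. -/
theorem linearIndependent_of_injective (h : Function.Injective (pm κ k E K)) {ι : Type*}
    {a : ι → E} (ha : LinearIndependent κ a) :
    LinearIndependent k fun i => algebraMap E K (a i) := by
  classical
  have h1 : LinearIndependent k fun i => (1 : k) ⊗ₜ[κ] a i := by
    let b := Basis.extend ha.linearIndepOn_id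
    let B := Algebra.TensorProduct.basis k b
    have h2 : ∀ i, B ⟨a i, Basis.subset_extend _ ⟨i, rfl⟩⟩ = (1 : k) ⊗ₜ[κ] a i := by
      intro i
      rw [Algebra.TensorProduct.basis_apply, Basis.extend_apply_self]
    have h3 := B.linearIndependent.comp
      (fun i => (⟨a i, Basis.subset_extend _ ⟨i, rfl⟩⟩ : ha.linearIndepOn_id.extend (Set.subset_univ _)))
      (by
        intro i j hij
        exact ha.injective (Subtype.ext_iff.1 hij))
    have h4 : (B ∘ fun i => (⟨a i, Basis.subset_extend _ ⟨i, rfl⟩⟩ :
        ha.linearIndepOn_id.extend (Set.subset_univ _))) = fun i => (1 : k) ⊗ₜ[κ] a i :=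
      funext h2
    rwa [h4] at h3
  have h5 := h1.map' (pm κ k E K).toLinearMap (LinearMap.ker_eq_bot.2 h)
  have h6 : ((pm κ k E K).toLinearMap ∘ fun i => (1 : k) ⊗ₜ[κ] a i) =
      fun i => algebraMap E K (a i) := by
    funext i
    change pm κ k E K (1 ⊗ₜ a i) = _
    rw [pm_tmul, map_one, one_mul]
  rwa [h6] at h5

end LD

section FD

variable {k K : Type u} [Field k] [Field K] [Algebra k K]

/-- `(κ, E)` is a field of definition of `K` over `k`, with transcendence basis `x`. -/
structure FD (κ : Subfield k) (E : IntermediateField κ K) {n : ℕ} (x : Fin n → K) : Prop where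
  closed : IsAlgClosed κ
  indep : AlgebraicIndependent k x
  mem : ∀ i, x i ∈ E
  alg : ∀ a ∈ E, IsAlgebraic (IntermediateField.adjoin κ (Set.range x)) a
  gen : IntermediateField.adjoin k (E : Set K) = ⊤
  fg : E.FG

variable {κ : Subfield k} {E : IntermediateField κ K} {n : ℕ} {x : Fin n → K}

theorem FD.pm_injective (h : FD κ E x) : Function.Injective (pm κ k E K) := by
  have := h.closed
  let x' : Fin n → E := fun i => ⟨x i, h.mem i⟩
  have hx' : (fun i => algebraMap E K (x' i)) = x := rfl
  refine TGFOD.pm_injective (x := x') (by rw [hx']; exact h.indep) ?_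
  intro e
  have h1 := h.alg e e.2
  have h2 : IsAlgebraic (Algebra.adjoin κ (Set.range x)) (e : K) := by
    have h3 := (IsFractionRing.isAlgebraic_iff (Algebra.adjoin κ (Set.range x))
      (IntermediateField.adjoin κ (Set.range x)) K (x := (e : K)))
    exact h3.2 h1
  have hr : (Algebra.adjoin κ (Set.range x')).map E.val = Algebra.adjoin κ (Set.range x) := by
    rw [AlgHom.map_adjoin, ← Set.range_comp]
    rfl
  let f : Algebra.adjoin κ (Set.range x') ≃ₐ[κ] Algebra.adjoin κ (Set.range x) :=
    ((Algebra.adjoin κ (Set.range x')).equivMapOfInjective E.val E.val.injective).trans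
      (Subalgebra.equivOfEq _ _ hr)
  refine (isAlgebraic_ringHom_iff_of_comp_eq (R := Algebra.adjoin κ (Set.range x'))
    (S := Algebra.adjoin κ (Set.range x)) (A := E) (B := K) f E.val (a := e)
    E.val.injective ?_).1 h2
  ext a
  rfl

/-- Extension of the field of definition. -/
def extE {κ : Subfield k} (E : IntermediateField κ K) (κ' : Subfield k) :
    IntermediateField κ' K := IntermediateField.adjoin κ' (E : Set K)

theorem FD.mono (h : FD κ E x) {κ' : Subfield k} (hle : κ ≤ κ') (hc : IsAlgClosed κ') :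
    FD κ' (extE E κ') x := by
  have hsub : (E : Set K) ⊆ (extE E κ' : Set K) := IntermediateField.subset_adjoin _ _
  refine ⟨hc, h.indep, fun i => hsub (h.mem i), ?_, ?_, ?_⟩
  · intro a ha
    let L := IntermediateField.adjoin κ' (Set.range x)
    have h1 : extE E κ' ≤ (algebraicClosure L K).restrictScalars κ' := by
      rw [extE, IntermediateField.adjoin_le_iff]
      intro e he
      have h2 := h.alg e he
      change e ∈ algebraicClosure L K
      rw [mem_algebraicClosure_iff]
      have hle2 : ∀ y ∈ IntermediateField.adjoin κ (Set.range x), y ∈ L := by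
        intro y hy
        induction hy using IntermediateField.adjoin_induction with
        | mem y hy => exact IntermediateField.subset_adjoin _ _ hy
        | algebraMap c => exact L.algebraMap_mem ⟨c, hle c.2⟩
        | add y z _ _ hy hz => exact L.add_mem hy hz
        | inv y _ hy => exact L.inv_mem hy
        | mul y z _ _ hy hz => exact L.mul_mem hy hz
      let f : IntermediateField.adjoin κ (Set.range x) →+* L :=
        { toFun := fun y => ⟨y, hle2 y y.2⟩
          map_one' := rfl
          map_mul' := fun _ _ => rfl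
          map_zero' := rfl
          map_add' := fun _ _ => rfl }
      exact h2.ringHom_of_comp_eq f (RingHom.id K) f.injective rfl
    exact (mem_algebraicClosure_iff).1 (h1 ha)
  · rw [eq_top_iff, ← h.gen, IntermediateField.adjoin_le_iff]
    exact fun e he => IntermediateField.subset_adjoin _ _ (hsub he)
  · obtain ⟨S, hS⟩ := h.fg
    refine ⟨S, ?_⟩
    apply le_antisymm
    · rw [IntermediateField.adjoin_le_iff]
      intro s hs
      apply hsub
      rw [← hS]
      exact IntermediateField.subset_adjoin _ _ hs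
    · rw [extE, IntermediateField.adjoin_le_iff]
      intro e he
      change e ∈ IntermediateField.adjoin κ' (S : Set K)
      have he' : e ∈ IntermediateField.adjoin κ (S : Set K) := by rw [hS]; exact he
      induction he' using IntermediateField.adjoin_induction with
      | mem y hy => exact IntermediateField.subset_adjoin _ _ hy
      | algebraMap c => exact (IntermediateField.adjoin κ' (S : Set K)).algebraMap_mem ⟨c, hle c.2⟩
      | add y z hy' hz' hy hz =>
        exact add_mem (hy (hS ▸ hy')) (hz (hS ▸ hz'))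
      | inv y hy' hy => exact inv_mem (hy (hS ▸ hy'))
      | mul y z hy' hz' hy hz => exact mul_mem (hy (hS ▸ hy')) (hz (hS ▸ hz'))

/-- Every element is a quotient of `k`-combinations of elements of `E`. -/
theorem FD.div (h : FD κ E x) (a : K) :
    ∃ u v : k ⊗[κ] E, v ≠ 0 ∧ a = pm κ k E K u / pm κ k E K v := by
  have h1 : a ∈ IntermediateField.adjoin k (E : Set K) := by rw [h.gen]; trivial
  obtain ⟨r, hr, s, hs, rfl⟩ := IntermediateField.mem_adjoin_iff_div.1 h1
  have h2 : ∀ r ∈ Algebra.adjoin k (E : Set K), ∃ w, pm κ k E K w = r := by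
    intro r hr
    have h3 : Algebra.adjoin k (E : Set K) ≤ (pm κ k E K).range := by
      rw [Algebra.adjoin_le_iff]
      intro e he
      refine ⟨1 ⊗ₜ ⟨e, he⟩, ?_⟩
      change pm κ k E K (1 ⊗ₜ ⟨e, he⟩) = e
      rw [pm_tmul, map_one, one_mul]
      rfl
    exact h3 hr
  obtain ⟨u, rfl⟩ := h2 r hr
  obtain ⟨v, rfl⟩ := h2 s hs
  by_cases hv : v = 0
  · refine ⟨0, 1, fun h0 => ?_, ?_⟩
    · have h3 := congrArg (pm κ k E K) h0
      rw [map_one (pm κ k E K), map_zero (pm κ k E K)] at h3
      exact one_ne_zero h3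
    · rw [hv, map_zero (pm κ k E K), div_zero, zero_div]
  · exact ⟨u, v, hv, rfl⟩

/-- `K` as a fraction field of `k ⊗ E`. -/
@[reducible] noncomputable def algT (κ : Subfield k) (E : IntermediateField κ K) :
    Algebra (k ⊗[κ] E) K := (pm κ k E K).toRingHom.toAlgebra

theorem FD.isFractionRing (h : FD κ E x) :
    @IsFractionRing (k ⊗[κ] E) _ K _ (algT κ E) := by
  let _ := algT κ E
  have hm : ∀ w, algebraMap (k ⊗[κ] E) K w = pm κ k E K w := fun _ => rfl
  have hinj : Function.Injective (algebraMap (k ⊗[κ] E) K) := h.pm_injective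
  have hdom : IsDomain (k ⊗[κ] E) := hinj.isDomain (algebraMap (k ⊗[κ] E) K)
  have hf : FaithfulSMul (k ⊗[κ] E) K := (faithfulSMul_iff_algebraMap_injective _ _).2 hinj
  refine IsFractionRing.of_field _ _ fun a => ?_
  obtain ⟨u, v, -, hv⟩ := h.div a
  exact ⟨u, v, hv⟩

/-- The action of the automorphisms of `k` over `κ` on `K`. -/
noncomputable def FD.act (h : FD κ E x) (σ : k ≃ₐ[κ] k) : K ≃+* K :=
  letI := algT κ E
  haveI := h.isFractionRing
  IsFractionRing.ringEquivOfRingEquiv (A := k ⊗[κ] E) (B := k ⊗[κ] E) (K := K) (L := K)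
    (Algebra.TensorProduct.congr σ (AlgEquiv.refl : E ≃ₐ[κ] E)).toRingEquiv

theorem FD.act_pm (h : FD κ E x) (σ : k ≃ₐ[κ] k) (w : k ⊗[κ] E) :
    h.act σ (pm κ k E K w) =
      pm κ k E K (Algebra.TensorProduct.congr σ (AlgEquiv.refl : E ≃ₐ[κ] E) w) :=
  letI := algT κ E
  haveI := h.isFractionRing
  IsFractionRing.ringEquivOfRingEquiv_algebraMap (A := k ⊗[κ] E) (B := k ⊗[κ] E) (K := K) (L := K)
    (h := (Algebra.TensorProduct.congr σ (AlgEquiv.refl : E ≃ₐ[κ] E)).toRingEquiv) w

/-- The action extends the one on `k`. -/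
theorem FD.act_algebraMap (h : FD κ E x) (σ : k ≃ₐ[κ] k) (c : k) :
    h.act σ (algebraMap k K c) = algebraMap k K (σ c) := by
  have h1 := h.act_pm σ (c ⊗ₜ 1)
  rw [pm_tmul, map_one, mul_one, Algebra.TensorProduct.congr_apply,
    Algebra.TensorProduct.map_tmul, pm_tmul] at h1
  rw [h1]
  simp

/-- The action fixes `E`. -/
theorem FD.act_mem (h : FD κ E x) (σ : k ≃ₐ[κ] k) {e : K} (he : e ∈ E) : h.act σ e = e := by
  have h1 := h.act_pm σ (1 ⊗ₜ ⟨e, he⟩)
  rw [pm_tmul, map_one, one_mul, Algebra.TensorProduct.congr_apply,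
    Algebra.TensorProduct.map_tmul, pm_tmul] at h1
  have h2 : algebraMap E K ⟨e, he⟩ = e := rfl
  rw [h2] at h1
  rw [h1]
  simp [h2]

/-- Uniqueness of the extension. -/
theorem FD.ext (h : FD κ E x) {f g : K →+* K}
    (h1 : ∀ c : k, f (algebraMap k K c) = g (algebraMap k K c)) (h2 : ∀ e ∈ E, f e = g e) :
    f = g := by
  have h3 : ∀ w : k ⊗[κ] E, f (pm κ k E K w) = g (pm κ k E K w) := by
    intro w
    induction w using TensorProduct.induction_on with
    | zero => simp
    | tmul c e =>
      rw [pm_tmul, map_mul, map_mul, h1]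
      congr 1
      exact h2 _ e.2
    | add a b ha hb => rw [map_add, map_add, map_add, ha, hb]
  ext a
  obtain ⟨u, v, -, rfl⟩ := h.div a
  rw [map_div₀, map_div₀, h3, h3]

theorem FD.act_unique (h : FD κ E x) (σ : k ≃ₐ[κ] k) (f : K →+* K)
    (h1 : ∀ c : k, f (algebraMap k K c) = algebraMap k K (σ c)) (h2 : ∀ e ∈ E, f e = e) (a : K) :
    h.act σ a = f a := by
  have h3 : ((h.act σ : K ≃+* K) : K →+* K) = f := h.ext
    (fun c => by rw [h1]; exact h.act_algebraMap σ c)
    (fun e he => by rw [h2 e he]; exact h.act_mem σ he)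
  exact DFunLike.congr_fun h3 a

theorem FD.act_mul (h : FD κ E x) (σ τ : k ≃ₐ[κ] k) (a : K) :
    h.act (σ * τ) a = h.act σ (h.act τ a) := by
  refine h.act_unique (σ * τ) (((h.act σ : K ≃+* K) : K →+* K).comp (h.act τ : K →+* K)) ?_ ?_ a
  · intro c
    change h.act σ (h.act τ (algebraMap k K c)) = _
    rw [h.act_algebraMap, h.act_algebraMap]
    rfl
  · intro e he
    change h.act σ (h.act τ e) = _
    rw [h.act_mem τ he, h.act_mem σ he]

theorem FD.act_one (h : FD κ E x) (a : K) : h.act 1 a = a :=
  h.act_unique 1 (RingHom.id K) (fun _ => rfl) (fun _ _ => rfl) a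

/-- The action as a group homomorphism. -/
noncomputable def FD.actHom (h : FD κ E x) : (k ≃ₐ[κ] k) →* (K ≃+* K) where
  toFun := h.act
  map_one' := RingEquiv.ext h.act_one
  map_mul' σ τ := RingEquiv.ext (h.act_mul σ τ)

/-- Automorphisms which fix a bigger field `κ'` fix the elements of `extE E κ'`. -/
theorem FD.act_ext (h : FD κ E x) {κ' : Subfield k} (σ : k ≃ₐ[κ] k) (hσ : ∀ c ∈ κ', σ c = c)
    {a : K} (ha : a ∈ extE E κ') : h.act σ a = a := by
  rw [extE] at ha
  induction ha using IntermediateField.adjoin_induction with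
  | mem y hy => exact h.act_mem σ hy
  | algebraMap c =>
    have h1 : algebraMap κ' K c = algebraMap k K (c : k) := rfl
    rw [h1, h.act_algebraMap, hσ _ c.2]
  | add y z _ _ hy hz => rw [map_add, hy, hz]
  | inv y _ hy => rw [map_inv₀, hy]
  | mul y z _ _ hy hz => rw [map_mul, hy, hz]

/-- An automorphism over a bigger field as an automorphism over `κ`. -/
def restr {κ κ' : Subfield k} (hle : κ ≤ κ') (σ : k ≃ₐ[κ'] k) : k ≃ₐ[κ] k :=
  AlgEquiv.ofRingEquiv (f := (σ : k ≃+* k)) fun c => σ.commutes ⟨c, hle c.2⟩

theorem restr_apply {κ κ' : Subfield k} (hle : κ ≤ κ') (σ : k ≃ₐ[κ'] k) (c : k) :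
    restr hle σ c = σ c := rfl

/-- The two actions agree. -/
theorem FD.act_mono (h : FD κ E x) {κ' : Subfield k} (hle : κ ≤ κ') (hc : IsAlgClosed κ')
    (σ : k ≃ₐ[κ'] k) (a : K) : (h.mono hle hc).act σ a = h.act (restr hle σ) a := by
  refine (h.act_unique (restr hle σ) ((h.mono hle hc).act σ : K →+* K) ?_ ?_ a).symm
  · intro c
    exact (h.mono hle hc).act_algebraMap σ c
  · intro e he
    exact (h.mono hle hc).act_mem σ (IntermediateField.subset_adjoin _ _ he)

end FD

end Pool.Agent.TGFOD
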