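import Pool.Agent.Lib.TG.Centre
import Pool.Agent.Lib.TG_h3.A0
import Pool.Agent.Lib.TGJ.NVPt

/-!
# TANK G: transport of local rings under semilinear automorphisms; finitely many points of the
normalisation over a point
-/

set_option autoImplicit false

namespace Pool.Agent.TGFOD

open Pool.Agent.LU2 (locV le_locV)
open Pool.Agent.TG

universe u

variable {k K : Type u} [Field k] [Field K] [Algebra k K]

section Semi

/-- `τ` is semilinear with respect to `σ`. -/
def SL (τ : K ≃+* K) (σ : k ≃+* k) : Prop := ∀ c : k, τ (algebraMap k K c) = algebraMap k K (σ c)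

variable {τ : K ≃+* K} {σ : k ≃+* k}

theorem SL.symm (h : SL τ σ) : SL τ.symm σ.symm := fun c => by
  rw [RingEquiv.symm_apply_eq, h, RingEquiv.apply_symm_apply]

/-- The valuation ring `τ⁻¹ V`. -/
def cm (τ : K ≃+* K) (V : ValuationSubring K) : ValuationSubring K := V.comap (τ : K →+* K)

theorem mem_cm {V : ValuationSubring K} {x : K} : x ∈ cm τ V ↔ τ x ∈ V := Iff.rfl

theorem cm_symm_cm (V : ValuationSubring K) : cm τ.symm (cm τ V) = V := by
  ext x
  rw [mem_cm, mem_cm, RingEquiv.apply_symm_apply]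

theorem val_le_iff {V : ValuationSubring K} {x : K} :
    (cm τ V).valuation x ≤ 1 ↔ V.valuation (τ x) ≤ 1 := by
  rw [ValuationSubring.valuation_le_one_iff, ValuationSubring.valuation_le_one_iff, mem_cm]

theorem val_eq_one_iff' {V : ValuationSubring K} {x : K} :
    V.valuation x = 1 ↔ x ≠ 0 ∧ x ∈ V ∧ x⁻¹ ∈ V := by
  constructor
  · intro h
    exact ⟨ne_zero_of_val_eq_one h, (V.valuation_le_one_iff _).1 h.le, inv_mem_of_val_eq_one h⟩
  · rintro ⟨h0, h1, h2⟩
    exact val_eq_one_of_mem_inv h0 h1 h2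

theorem val_eq_iff {V : ValuationSubring K} {x : K} :
    (cm τ V).valuation x = 1 ↔ V.valuation (τ x) = 1 := by
  rw [val_eq_one_iff', val_eq_one_iff', mem_cm, mem_cm, map_inv₀]
  constructor
  · rintro ⟨h0, h1⟩
    exact ⟨fun h => h0 ((map_eq_zero_iff τ τ.injective).1 h), h1⟩
  · rintro ⟨h0, h1⟩
    exact ⟨fun h => h0 (by rw [h, map_zero]), h1⟩

theorem val_lt_iff {V : ValuationSubring K} {x : K} :
    (cm τ V).valuation x < 1 ↔ V.valuation (τ x) < 1 := by
  rw [lt_iff_le_and_ne, lt_iff_le_and_ne, val_le_iff, Ne, Ne, val_eq_iff]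

theorem SL.ov (h : SL τ σ) {V : ValuationSubring K} (hV : Ov k V) : Ov k (cm τ V) := fun c => by
  rw [mem_cm, h]
  exact hV _

theorem SL.zdim (h : SL τ σ) {V : ValuationSubring K} (hV : ZDim k V) : ZDim k (cm τ V) := by
  refine ⟨h.ov hV.ov, fun x hx => ?_⟩
  obtain ⟨c, hc⟩ := hV.res (τ x) hx
  refine ⟨σ.symm c, ?_⟩
  rw [val_lt_iff, map_sub, h, RingEquiv.apply_symm_apply]
  exact hc

variable {P : Submodule k K}

theorem isMin_iff (hP : ∀ x, x ∈ P ↔ τ x ∈ P) {V : ValuationSubring K} {f : K} :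
    IsMin (cm τ V) P f ↔ IsMin V P (τ f) := by
  constructor
  · intro h
    refine ⟨(hP f).1 h.mem, fun h0 => h.ne ((map_eq_zero_iff τ τ.injective).1 h0), fun g hg => ?_⟩
    have h1 := h.div (τ.symm g) ((hP _).2 (by rwa [RingEquiv.apply_symm_apply]))
    rw [mem_cm, map_div₀, RingEquiv.apply_symm_apply] at h1
    exact h1
  · intro h
    refine ⟨(hP f).2 h.mem, fun h0 => h.ne (by rw [h0, map_zero]), fun g hg => ?_⟩
    rw [mem_cm, map_div₀]
    exact h.div _ ((hP g).1 hg)

theorem SL.ch_map (h : SL τ σ) (hP : ∀ x ∈ P, τ x ∈ P) {f x : K} (hx : x ∈ ch P f) :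
    τ x ∈ ch P (τ f) := by
  unfold ch at hx
  induction hx using Algebra.adjoin_induction with
  | mem y hy =>
    obtain ⟨g, hg, rfl⟩ := hy
    dsimp only
    rw [map_div₀]
    exact div_mem_ch (hP g hg)
  | algebraMap c =>
    rw [h]
    exact Subalgebra.algebraMap_mem _ _
  | add y z _ _ hy hz => rw [map_add]; exact add_mem hy hz
  | mul y z _ _ hy hz => rw [map_mul]; exact mul_mem hy hz

theorem SL.mem_ch (h : SL τ σ) (hP : ∀ x, x ∈ P ↔ τ x ∈ P) {f x : K} :
    x ∈ ch P f ↔ τ x ∈ ch P (τ f) := by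
  refine ⟨h.ch_map fun x hx => (hP x).1 hx, fun hx => ?_⟩
  have h1 := h.symm.ch_map (P := P) (fun x hx => (hP _).2 (by rwa [RingEquiv.apply_symm_apply])) hx
  rwa [RingEquiv.symm_apply_apply, RingEquiv.symm_apply_apply] at h1

theorem ncl_map {R R' : Subalgebra k K} (hR : ∀ x ∈ R, τ x ∈ R') {x : K} (hx : x ∈ ncl R) :
    τ x ∈ ncl R' := by
  obtain ⟨p, hp, hc, h0⟩ := exists_poly_of_mem_ncl hx
  refine mem_ncl_of_root (p.map (τ : K →+* K)) (hp.map _) (fun i => ?_) ?_
  · rw [Polynomial.coeff_map]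
    exact le_ncl _ (hR _ (hc i))
  · have h1 := Polynomial.eval_map_apply (τ : K →+* K) (p := p) (x := x)
    rw [h0] at h1
    exact h1.trans (map_zero _)

theorem mem_ncl_iff {R R' : Subalgebra k K} (hR : ∀ x, x ∈ R ↔ τ x ∈ R') {x : K} :
    x ∈ ncl R ↔ τ x ∈ ncl R' := by
  refine ⟨ncl_map fun x hx => (hR x).1 hx, fun hx => ?_⟩
  have h1 := ncl_map (τ := τ.symm) (R' := R)
    (fun x hx => (hR _).2 (by rwa [RingEquiv.apply_symm_apply])) hx
  rwa [RingEquiv.symm_apply_apply] at h1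

theorem mem_locV_iff {R R' : Subalgebra k K} (hR : ∀ x, x ∈ R ↔ τ x ∈ R')
    {V : ValuationSubring K} {x : K} : x ∈ locV (cm τ V) R ↔ τ x ∈ locV V R' := by
  constructor
  · rintro ⟨a, ha, b, hb, h1, rfl⟩
    exact ⟨τ a, (hR a).1 ha, τ b, (hR b).1 hb, val_eq_iff.1 h1, map_div₀ τ a b⟩
  · rintro ⟨a, ha, b, hb, h1, hx⟩
    refine ⟨τ.symm a, (hR _).2 (by rwa [RingEquiv.apply_symm_apply]), τ.symm b,
      (hR _).2 (by rwa [RingEquiv.apply_symm_apply]), ?_, ?_⟩
    · rw [val_eq_iff, RingEquiv.apply_symm_apply]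
      exact h1
    · apply τ.injective
      rw [hx, map_div₀, RingEquiv.apply_symm_apply, RingEquiv.apply_symm_apply]

theorem SL.mem_RV (h : SL τ σ) (hP : ∀ x, x ∈ P ↔ τ x ∈ P) (hPM : IsModel P)
    {V : ValuationSubring K} (hV : Ov k V) {x : K} : x ∈ RV (cm τ V) P ↔ τ x ∈ RV V P := by
  obtain ⟨f, hf⟩ := exists_isMin (h.ov hV) hPM
  have hf' := (isMin_iff hP).1 hf
  rw [RV_eq hf, RV_eq hf']
  exact mem_locV_iff fun x => h.mem_ch hP

theorem SL.mem_NV (h : SL τ σ) (hP : ∀ x, x ∈ P ↔ τ x ∈ P) (hPM : IsModel P)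
    {V : ValuationSubring K} (hV : Ov k V) {x : K} : x ∈ NV (cm τ V) P ↔ τ x ∈ NV V P := by
  obtain ⟨f, hf⟩ := exists_isMin (h.ov hV) hPM
  have hf' := (isMin_iff hP).1 hf
  rw [NV_eq hf, NV_eq hf']
  exact mem_locV_iff fun x => mem_ncl_iff fun x => h.mem_ch hP

end Semi

section Agree

variable {V V' : ValuationSubring K}

/-- The elements which have the same residue in `k` at `V` and at `V'`. -/
def agr (hV : Ov k V) (hV' : Ov k V') : Subalgebra k K where
  carrier := {a | ∃ c : k, V.valuation (a - algebraMap k K c) < 1 ∧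
    V'.valuation (a - algebraMap k K c) < 1}
  mul_mem' := by
    rintro a b ⟨c, hc, hc'⟩ ⟨d, hd, hd'⟩
    have key : ∀ V : ValuationSubring K, Ov k V → V.valuation (a - algebraMap k K c) < 1 →
        V.valuation (b - algebraMap k K d) < 1 →
        V.valuation (a * b - algebraMap k K (c * d)) < 1 := by
      intro V hV h1 h2
      have e1 : a * b - algebraMap k K (c * d) = (a - algebraMap k K c) * b +
          (b - algebraMap k K d) * algebraMap k K c := by rw [map_mul]; ring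
      have e2 : V.valuation b ≤ 1 := by
        have e3 : b = (b - algebraMap k K d) + algebraMap k K d := by ring
        rw [e3]
        exact (Valuation.map_add _ _ _).trans (max_le h2.le ((V.valuation_le_one_iff _).2 (hV d)))
      rw [e1]
      refine Valuation.map_add_lt _ ?_ ?_
      · rw [map_mul]
        exact mul_lt_one_of_lt_of_le h1 e2
      · rw [map_mul]
        exact mul_lt_one_of_lt_of_le h2 ((V.valuation_le_one_iff _).2 (hV c))
    exact ⟨c * d, key V hV hc hd, key V' hV' hc' hd'⟩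
  add_mem' := by
    rintro a b ⟨c, hc, hc'⟩ ⟨d, hd, hd'⟩
    have key : ∀ V : ValuationSubring K, V.valuation (a - algebraMap k K c) < 1 →
        V.valuation (b - algebraMap k K d) < 1 →
        V.valuation (a + b - algebraMap k K (c + d)) < 1 := by
      intro V h1 h2
      have e1 : a + b - algebraMap k K (c + d) = (a - algebraMap k K c) +
          (b - algebraMap k K d) := by rw [map_add]; ring
      rw [e1]
      exact Valuation.map_add_lt _ h1 h2
    exact ⟨c + d, key V hc hd, key V' hc' hd'⟩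
  algebraMap_mem' c := ⟨c, by rw [sub_self, map_zero]; exact zero_lt_one,
    by rw [sub_self, map_zero]; exact zero_lt_one⟩

theorem mem_agr {hV : Ov k V} {hV' : Ov k V'} {a : K} : a ∈ agr hV hV' ↔
    ∃ c : k, V.valuation (a - algebraMap k K c) < 1 ∧ V'.valuation (a - algebraMap k K c) < 1 :=
  Iff.rfl

theorem val_eq_one_iff_res {V : ValuationSubring K} (hV : Ov k V) {a : K} {c : k}
    (h : V.valuation (a - algebraMap k K c) < 1) : V.valuation a = 1 ↔ c ≠ 0 := by
  constructor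
  · rintro h1 rfl
    rw [map_zero, sub_zero, h1] at h
    exact lt_irrefl _ h
  · intro hc
    have h1 : V.valuation (algebraMap k K c) = 1 := by
      rw [val_eq_one_iff']
      refine ⟨fun h0 => hc ((map_eq_zero_iff _ (algebraMap k K).injective).1 h0), hV c, ?_⟩
      rw [← map_inv₀]
      exact hV _
    have h2 : a = algebraMap k K c + (a - algebraMap k K c) := by ring
    rw [h2, Valuation.map_add_eq_of_lt_left _ (by rwa [h1]), h1]

theorem val_eq_one_of_agr {hV : Ov k V} {hV' : Ov k V'} {a : K} (h : a ∈ agr hV hV') :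
    V.valuation a = 1 ↔ V'.valuation a = 1 := by
  obtain ⟨c, hc, hc'⟩ := h
  rw [val_eq_one_iff_res hV hc, val_eq_one_iff_res hV' hc']

variable {P : Submodule k K}

/-- If the residues of the generators of the chart agree, the local rings agree. -/
theorem RV_eq_of_agr (hV : Ov k V) (hV' : Ov k V') {f : K} (hf : IsMin V P f)
    (h : ∀ g ∈ P, g / f ∈ agr hV hV') : IsMin V' P f ∧ RV V P = RV V' P := by
  have hf' : IsMin V' P f := by
    refine ⟨hf.mem, hf.ne, fun g hg => ?_⟩
    obtain ⟨c, -, hc⟩ := h g hg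
    have h1 : g / f = (g / f - algebraMap k K c) + algebraMap k K c := by ring
    rw [h1]
    exact V'.add_mem _ _ ((V'.valuation_le_one_iff _).1 hc.le) (hV' c)
  refine ⟨hf', RV_congr_centre hf hf' fun a ha => ?_⟩
  have h1 : ch P f ≤ agr hV hV' := ch_le_iff.2 h
  exact val_eq_one_of_agr (h1 ha)

theorem NV_eq_of_agr (hV : Ov k V) (hV' : Ov k V') {f : K} (hf : IsMin V P f)
    (hf' : IsMin V' P f) {G : Set K} (hG : Algebra.adjoin k G = chN P f)
    (h : ∀ g ∈ G, g ∈ agr hV hV') : NV V P = NV V' P := by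
  refine NV_congr_centre hf hf' fun a ha => ?_
  have h1 : chN P f ≤ agr hV hV' := by
    rw [← hG]
    exact Algebra.adjoin_le h
  exact val_eq_one_of_agr (h1 ha)

end Agree

section Finite

variable {P : Submodule k K}

/-- There are finitely many points over a point in an integral extension of finite type. -/
theorem finite_points {A B : Subalgebra k K} (hAB : A ≤ B) (hB : B.FG)
    (hint : ∀ b ∈ B, IsIntegral A b) (χ₀ : A →ₐ[k] k) :
    {χ : B →ₐ[k] k | ∀ a : A, χ (Subalgebra.inclusion hAB a) = χ₀ a}.Finite := by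
  classical
  obtain ⟨G, hG⟩ := hB
  have hGB : ∀ b ∈ G, b ∈ B := fun b hb => by rw [← hG]; exact Algebra.subset_adjoin hb
  have h1 : ∀ b : G, ∃ p : Polynomial A, p.Monic ∧ Polynomial.eval₂ (algebraMap A K) (b : K) p = 0 :=
    fun b => hint b (hGB b b.2)
  choose p hpm hp using h1
  let q : G → Polynomial k := fun b => (p b).map (χ₀ : A →+* k)
  have hq : ∀ b, q b ≠ 0 := fun b => ((hpm b).map _).ne_zero
  let Φ : (B →ₐ[k] k) → G → k := fun χ b => χ ⟨b, hGB b b.2⟩
  refine Set.Finite.of_finite_image (f := Φ) ?_ ?_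
  · refine (Set.Finite.pi' (t := fun b : G => {c : k | c ∈ (q b).roots})
      fun b => ?_).subset ?_
    · exact (q b).roots.toFinset.finite_toSet.subset fun c hc => by
        simpa using hc
    · rintro _ ⟨χ, hχ, rfl⟩ b
      change Φ χ b ∈ (q b).roots
      rw [Polynomial.mem_roots (hq b), Polynomial.IsRoot.def, Polynomial.eval_map]
      have h2 : Polynomial.eval₂ ((χ : B →+* k).comp
          ((Subalgebra.inclusion hAB : A →ₐ[k] B) : A →+* B)) (Φ χ b) (p b) =
          χ (Polynomial.eval₂ ((Subalgebra.inclusion hAB : A →ₐ[k] B) : A →+* B)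
            ⟨b, hGB b b.2⟩ (p b)) :=
        (Polynomial.hom_eval₂ (p b) _ (χ : B →+* k) _).symm
      have h3 : (χ : B →+* k).comp ((Subalgebra.inclusion hAB : A →ₐ[k] B) : A →+* B) =
          (χ₀ : A →+* k) := RingHom.ext hχ
      rw [h3] at h2
      rw [h2]
      have h4 : Polynomial.eval₂ ((Subalgebra.inclusion hAB : A →ₐ[k] B) : A →+* B)
          (⟨b, hGB b b.2⟩ : B) (p b) = 0 := by
        apply Subtype.val_injective
        have h5 := Polynomial.hom_eval₂ (p b) ((Subalgebra.inclusion hAB : A →ₐ[k] B) : A →+* B)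
          (B.val : B →+* K) ⟨b, hGB b b.2⟩
        exact h5.trans (hp b)
      rw [h4, map_zero]
  · intro χ _ χ' _ h
    refine AlgHom.ext fun b => ?_
    have h2 : ∀ c : K, ∀ hc : c ∈ B, χ ⟨c, hc⟩ = χ' ⟨c, hc⟩ := by
      intro c hc
      have hc' : c ∈ Algebra.adjoin k (G : Set K) := by rw [hG]; exact hc
      induction hc' using Algebra.adjoin_induction with
      | mem y hy => exact congrFun h ⟨y, hy⟩
      | algebraMap r =>
        have e : (⟨algebraMap k K r, hc⟩ : B) = algebraMap k B r := rfl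
        rw [e, AlgHom.commutes, AlgHom.commutes]
      | add y z hy hz ihy ihz =>
        have hy' : y ∈ B := hG ▸ hy
        have hz' : z ∈ B := hG ▸ hz
        have e : (⟨y + z, hc⟩ : B) = ⟨y, hy'⟩ + ⟨z, hz'⟩ := rfl
        rw [e, map_add, map_add, ihy hy', ihz hz']
      | mul y z hy hz ihy ihz =>
        have hy' : y ∈ B := hG ▸ hy
        have hz' : z ∈ B := hG ▸ hz
        have e : (⟨y * z, hc⟩ : B) = ⟨y, hy'⟩ * ⟨z, hz'⟩ := rfl
        rw [e, map_mul, map_mul, ihy hy', ihz hz']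
    exact h2 b b.2

open Pool.Agent.TGJ (ResAt exists_resAt) in
/-- There are finitely many points of the normalisation over a point of the model. -/
theorem finite_NV [IsAlgClosed k] (hK : (⊤ : IntermediateField k K).FG) (hP : IsModel P)
    (hfin : Fin' P) {V : ValuationSubring K} (hV : ZDim k V) :
    {S : Subalgebra k K | ∃ V', ZDim k V' ∧ RV V' P = RV V P ∧ S = NV V' P}.Finite := by
  classical
  obtain ⟨f, hf⟩ := exists_isMin hV.ov hP
  have hfg : (chN P f).FG := TGD.ncl_fg hK (ch_fg hP.fg) fun a => hfin.isAlgebraic hf.ne a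
  obtain ⟨χ₀, hχ₀⟩ := exists_resAt (ch_le hV.ov hf) hV
  have hle : ch P f ≤ chN P f := le_ncl _
  have h1 := finite_points hle hfg (fun b hb => hb) χ₀
  have h2 : ∀ V' : ValuationSubring K, ∃ χ : chN P f →ₐ[k] k, ZDim k V' → IsMin V' P f →
      ResAt V' χ := by
    intro V'
    by_cases h : ZDim k V' ∧ IsMin V' P f
    · obtain ⟨χ, hχ⟩ := exists_resAt (ncl_mem (ch_le h.1.ov h.2)) h.1
      exact ⟨χ, fun _ _ => hχ⟩
    · obtain ⟨χ, -⟩ := exists_resAt (ncl_mem (ch_le hV.ov hf)) hV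
      exact ⟨χ, fun h1 h2 => absurd ⟨h1, h2⟩ h⟩
  choose χ hχ using h2
  have hex : ∀ ψ : chN P f →ₐ[k] k, ∃ S : Subalgebra k K, ∀ V', ZDim k V' → IsMin V' P f →
      χ V' = ψ → NV V' P = S := by
    intro ψ
    by_cases h : ∃ V', ZDim k V' ∧ IsMin V' P f ∧ χ V' = ψ
    · obtain ⟨V₁, hz₁, hm₁, he₁⟩ := h
      refine ⟨NV V₁ P, fun V' hz' hm' he' => ?_⟩
      refine NV_congr_centre hm' hm₁ fun a ha => ?_
      rw [← (hχ V' hz' hm').ne_zero_iff hz'.ov ⟨a, ha⟩, ← (hχ V₁ hz₁ hm₁).ne_zero_iff hz₁.ov ⟨a, ha⟩,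
        he', he₁]
    · exact ⟨⊥, fun V' h1 h2 h3 => absurd ⟨V', h1, h2, h3⟩ h⟩
  choose F hF using hex
  refine (h1.image F).subset ?_
  rintro S ⟨V', hz', hRV, rfl⟩
  have hm' : IsMin V' P f := hf.of_RV_eq hz'.ov hP hRV.symm
  refine ⟨χ V', ?_, (hF _ V' hz' hm' rfl).symm⟩
  intro a
  -- residues of elements of the chart
  have h3 : V.valuation ((a : K) - algebraMap k K (χ₀ a)) < 1 := hχ₀ a
  have h4 : V'.valuation ((a : K) - algebraMap k K (χ₀ a)) < 1 := by
    have h5 : (a : K) - algebraMap k K (χ₀ a) ∈ ch P f :=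
      sub_mem a.2 (Subalgebra.algebraMap_mem _ _)
    have h6 : (a : K) - algebraMap k K (χ₀ a) ∈ RV V P := by
      rw [RV_eq hf]
      exact le_locV _ h5
    have h7 := val_eq_one_of_RV_eq hV.ov hz'.ov hP hRV.symm h6
    have h8 : V'.valuation ((a : K) - algebraMap k K (χ₀ a)) ≤ 1 :=
      (V'.valuation_le_one_iff _).2 (ch_le hz'.ov hm' _ h5)
    refine lt_of_le_of_ne h8 fun h9 => ?_
    rw [h7.2 h9] at h3
    exact lt_irrefl _ h3
  have h5 := hχ V' hz' hm' (Subalgebra.inclusion hle a)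
  exact Pool.Agent.TGJ.res_uniq hz'.ov h5 h4

end Finite

end Pool.Agent.TGFOD
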